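import Mathlib

/-! Orbit of `1` under the beta transformation for palindromic polynomials with small coefficients. -/

open Polynomial

namespace Pool.Agent.Helper3

/-- The beta transformation. -/
noncomputable def T (B x : ℝ) : ℝ := Int.fract (B * x)

lemma fract_eq_of (x y : ℝ) (n : ℤ) (h : x = n + y) (h0 : 0 ≤ y) (h1 : y < 1) : Int.fract x = y := by
  rw [h, Int.fract_intCast_add]
  exact Int.fract_eq_self.2 ⟨h0, h1⟩

/-- If the Horner remainders `v j` lie in `[0,1)` and the last one produces `-1/B`, then the orbit of `1`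
is eventually periodic. -/
lemma orbit_periodic (B : ℝ) (hB : 1 < B) (n : ℕ) (hn : 1 ≤ n) (v : ℕ → ℝ) (c : ℕ → ℤ)
    (h0 : v 0 = 1) (hstep : ∀ j < n, B * v j = c (j+1) + v (j+1))
    (hv : ∀ j, 1 ≤ j → j ≤ n → 0 ≤ v j ∧ v j < 1)
    (hlast : B * v n = c (n+1) - 1/B) :
    (T B)^[n+2] 1 = (T B)^[1] 1 := by
  have hB0 : (0:ℝ) < B := by linarith
  have h1 : ∀ j, j ≤ n → (T B)^[j] 1 = v j := by
    intro j
    induction j with
    | zero => intro _; simp [h0]
    | succ j ih =>
      intro hj
      rw [Function.iterate_succ_apply', ih (by omega)]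
      unfold T
      exact fract_eq_of _ _ (c (j+1)) (hstep j (by omega)) (hv (j+1) (by omega) hj).1 (hv (j+1) (by omega) hj).2
  have hinv : 0 < 1/B ∧ 1/B < 1 := by
    constructor
    · positivity
    · rw [div_lt_one hB0]; exact hB
  have h2 : (T B)^[n+1] 1 = 1 - 1/B := by
    rw [Function.iterate_succ_apply', h1 n le_rfl]
    unfold T
    refine fract_eq_of _ _ (c (n+1) - 1) ?_ (by linarith [hinv.2]) (by linarith [hinv.1])
    rw [hlast]; push_cast; ring
  have h3 : (T B)^[n+2] 1 = v 1 := by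
    rw [Function.iterate_succ_apply', h2]
    unfold T
    refine fract_eq_of _ _ (c 1 - 1) ?_ (hv 1 le_rfl hn).1 (hv 1 le_rfl hn).2
    have := hstep 0 (by omega)
    rw [h0, mul_one] at this
    rw [mul_sub, mul_one, mul_one_div_cancel hB0.ne', this]
    push_cast; ring
  rw [h3, h1 1 hn]

/-- Main criterion in terms of the polynomial `R` with `P = (X - B) (X - 1/B) R`. -/
lemma orbit_of_poly (B δ : ℝ) (hB : 1 < B) (hδ : 0 < δ) (hBδ : 1 / B ≤ δ) (n : ℕ) (hn : 2 ≤ n) (P : ℤ[X]) (R : ℝ[X])
    (hdeg : R.natDegree = n) (hmonic : R.Monic) (hR0 : R.coeff 0 = 1)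
    (hR : ∀ i, 1 ≤ i → i < n → δ < R.coeff i ∧ R.coeff i < 1)
    (hP : P.map (Int.castRingHom ℝ) = (X - C B) * ((X - C (1/B)) * R)) :
    (T B)^[n+2] 1 = (T B)^[1] 1 := by
  have hB0 : (0:ℝ) < B := by linarith
  have hRn : R.coeff n = 1 := by rw [← hdeg]; exact hmonic
  have hRn1 : R.coeff (n+1) = 0 := Polynomial.coeff_eq_zero_of_natDegree_lt (by omega)
  -- coefficients of V = (X - 1/B) R
  set V : ℝ[X] := (X - C (1/B)) * R with hV
  have hVc : ∀ i, V.coeff (i+1) = R.coeff i - (1/B) * R.coeff (i+1) := by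
    intro i
    rw [hV, sub_mul, Polynomial.coeff_sub, Polynomial.coeff_X_mul, Polynomial.coeff_C_mul]
  have hV0 : V.coeff 0 = - (1/B) := by
    rw [hV, sub_mul, Polynomial.coeff_sub, Polynomial.coeff_X_mul_zero, Polynomial.coeff_C_mul, hR0]
    ring
  have hPc : ∀ i, ((P.coeff (i+1) : ℤ) : ℝ) = V.coeff i - B * V.coeff (i+1) := by
    intro i
    have : (P.map (Int.castRingHom ℝ)).coeff (i+1) = ((X - C B) * V).coeff (i+1) := by rw [hP]
    rw [Polynomial.coeff_map, sub_mul, Polynomial.coeff_sub, Polynomial.coeff_X_mul, Polynomial.coeff_C_mul] at this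
    simpa using this
  -- v j = V.coeff (n + 1 - j)
  apply orbit_periodic B hB n (by omega) (fun j => V.coeff (n + 1 - j)) (fun j => - P.coeff (n + 2 - j))
  · simp only [Nat.sub_zero]
    rw [hVc n, hRn, hRn1]; ring
  · intro j hj
    have := hPc (n - j)
    have e1 : n - j + 1 = n + 2 - (j+1) := by omega
    have e2 : n - j = n + 1 - (j+1) := by omega
    have e3 : n - j + 1 = n + 1 - j := by omega
    rw [← e1, ← e2, ← e3]
    push_cast
    rw [this]; ring
  · intro j hj1 hjn
    have e3 : n + 1 - j = (n - j) + 1 := by omega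
    show 0 ≤ V.coeff (n+1-j) ∧ V.coeff (n+1-j) < 1
    rw [e3, hVc]
    have hinv : 0 < 1/B := by positivity
    -- bounds of R.coeff (n-j+1) ≤ 1
    have hub : R.coeff (n - j + 1) ≤ 1 ∧ 0 < R.coeff (n-j+1) := by
      rcases Nat.lt_or_ge (n - j + 1) n with h | h
      · exact ⟨(hR _ (by omega) h).2.le, hδ.trans (hR _ (by omega) h).1⟩
      · have : n - j + 1 = n := by omega
        rw [this, hRn]; exact ⟨le_rfl, one_pos⟩
    have hprod : 0 < (1/B) * R.coeff (n-j+1) ∧ (1/B) * R.coeff (n-j+1) ≤ 1/B := by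
      constructor
      · exact mul_pos hinv hub.2
      · nlinarith [hub.1]
    rcases Nat.eq_zero_or_pos (n - j) with h | h
    · rw [h, hR0]
      rw [h] at hprod
      have hB1 : 1/B < 1 := by rw [div_lt_one hB0]; exact hB
      constructor
      · linarith [hprod.2]
      · linarith [hprod.1]
    · have := hR (n-j) h (by omega)
      constructor
      · linarith [hprod.2]
      · linarith [hprod.1]
  · have := hPc 0
    show B * V.coeff (n+1-n) = ((- P.coeff (n+2-(n+1)) : ℤ) : ℝ) - 1/B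
    have e1 : n + 1 - n = 1 := by omega
    have e2 : n + 2 - (n+1) = 1 := by omega
    rw [e1, e2]
    simp only [zero_add] at this
    push_cast
    rw [this, hV0]; ring

end Pool.Agent.Helper3
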