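import Mathlib

/-! Conjugates of Salem numbers and of their powers. -/

open Polynomial

namespace Pool.Agent.Helper3

/-- Salem numbers: real algebraic integers `β > 1` all of whose other conjugates have modulus at most one,
at least one conjugate having modulus exactly one. -/
def IsSalem (β : ℝ) : Prop :=
  1 < β ∧ IsIntegral ℤ β ∧
    (∀ z : ℂ, aeval z (minpoly ℤ β) = 0 → z ≠ (β : ℂ) → ‖z‖ ≤ 1) ∧
    (∃ z : ℂ, aeval z (minpoly ℤ β) = 0 ∧ ‖z‖ = 1)

/-- The field of algebraic numbers inside `ℂ`. -/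
noncomputable abbrev K : IntermediateField ℚ ℂ := algebraicClosure ℚ ℂ

instance instAlgK : Algebra.IsAlgebraic ℚ K := algebraicClosure.isAlgebraic ℚ ℂ

instance instIntK : Algebra.IsIntegral ℚ K := inferInstance

lemma mem_K_of_root {p : ℤ[X]} (hp : p ≠ 0) {z : ℂ} (hz : aeval z p = 0) : z ∈ algebraicClosure ℚ ℂ := by
  rw [mem_algebraicClosure_iff]
  refine ⟨p.map (Int.castRingHom ℚ), ?_, ?_⟩
  · rw [Ne, Polynomial.map_eq_zero_iff (RingHom.injective_int _)]; exact hp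
  · have : algebraMap ℤ ℚ = Int.castRingHom ℚ := rfl
    rw [← this, aeval_map_algebraMap]; exact hz

section

variable {β : ℝ} (hβ : IsIntegral ℤ β)

include hβ

lemma minpoly_map_Q : (minpoly ℤ β).map (algebraMap ℤ ℚ) = minpoly ℚ β :=
  (minpoly.isIntegrallyClosed_eq_field_fractions' ℚ hβ).symm

lemma minpoly_root {z : K} (hz : aeval (z : ℂ) (minpoly ℤ β) = 0) : minpoly ℚ z = (minpoly ℤ β).map (algebraMap ℤ ℚ) := by
  symm
  apply minpoly.eq_of_irreducible_of_monic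
  · rw [minpoly_map_Q hβ]
    exact minpoly.irreducible hβ.tower_top
  · have : (algebraMap K ℂ) (aeval z ((minpoly ℤ β).map (algebraMap ℤ ℚ))) = 0 := by
      rw [aeval_map_algebraMap, ← aeval_algebraMap_apply]
      exact hz
    exact (map_eq_zero _).1 this
  · exact (minpoly.monic hβ).map _

lemma aeval_emb (σ : K →ₐ[ℚ] ℂ) (z : K) (p : ℤ[X]) (hz : aeval (z : ℂ) p = 0) : aeval (σ z) p = 0 := by
  have h1 : aeval z p = 0 := by
    have : (algebraMap K ℂ) (aeval z p) = 0 := by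
      rw [← aeval_algebraMap_apply]; exact hz
    exact (map_eq_zero _).1 this
  have h2 : aeval (σ z) p = σ (aeval z p) := by
    have h3 := Polynomial.hom_eval₂ p (algebraMap ℤ K) (σ : K →+* ℂ) z
    rw [aeval_def, aeval_def]
    have h4 : (σ : K →+* ℂ).comp (algebraMap ℤ K) = algebraMap ℤ ℂ := RingHom.ext_int _ _
    rw [h4] at h3
    exact h3.symm
  rw [h2, h1, map_zero]

lemma exists_emb (z : K) (hz : aeval (z : ℂ) (minpoly ℤ β) = 0) (w : ℂ) (hw : aeval w (minpoly ℤ β) = 0) :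
    ∃ σ : K →ₐ[ℚ] ℂ, σ z = w := by
  have h := Algebra.IsAlgebraic.range_eval_eq_rootSet_minpoly (F := ℚ) (K := K) ℂ z
  have h2 : w ∈ (minpoly ℚ z).rootSet ℂ := by
    rw [mem_rootSet_of_ne (minpoly.ne_zero (Algebra.IsIntegral.isIntegral z)), minpoly_root hβ hz, aeval_map_algebraMap]
    exact hw
  rw [← h] at h2
  exact h2

end

lemma aeval_real (β : ℝ) (p : ℤ[X]) : aeval (β : ℂ) p = ((aeval β p : ℝ) : ℂ) := by
  exact aeval_algebraMap_apply ℂ β p

lemma self_root (β : ℝ) : aeval (β : ℂ) (minpoly ℤ β) = 0 := by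
  rw [aeval_real, minpoly.aeval]; simp

lemma conj_root {p : ℤ[X]} {z : ℂ} (hz : aeval z p = 0) : aeval ((starRingEnd ℂ) z) p = 0 := by
  have h2 : aeval ((starRingEnd ℂ) z) p = (starRingEnd ℂ) (aeval z p) := by
    rw [aeval_def, aeval_def, Polynomial.hom_eval₂]
    congr 1
    exact RingHom.ext_int _ _
  rw [h2, hz, map_zero]

section Salem

variable {β : ℝ} (hβ : IsSalem β)

include hβ

lemma salem_ne : minpoly ℤ β ≠ 0 := minpoly.ne_zero hβ.2.1

/-- The inverse of a conjugate is a conjugate. -/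
lemma inv_root {w : ℂ} (hw : aeval w (minpoly ℤ β) = 0) : aeval w⁻¹ (minpoly ℤ β) = 0 := by
  obtain ⟨z, hz, hz1⟩ := hβ.2.2.2
  have hzinv : z⁻¹ = (starRingEnd ℂ) z := by
    rw [Complex.inv_def, Complex.normSq_eq_norm_sq, hz1]; simp
  have hz' : aeval z⁻¹ (minpoly ℤ β) = 0 := by rw [hzinv]; exact conj_root hz
  let zK : K := ⟨z, mem_K_of_root (salem_ne hβ) hz⟩
  obtain ⟨σ, hσ⟩ := exists_emb hβ.2.1 zK hz w hw
  have : σ (zK⁻¹) = w⁻¹ := by rw [map_inv₀, hσ]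
  rw [← this]
  apply aeval_emb hβ.2.1 σ (zK⁻¹)
  simpa [zK] using hz'

lemma root_ne_zero {w : ℂ} (hw : aeval w (minpoly ℤ β) = 0) : w ≠ 0 := by
  rintro rfl
  -- embed 0 to β : impossible
  let zK : K := ⟨0, mem_K_of_root (salem_ne hβ) hw⟩
  obtain ⟨σ, hσ⟩ := exists_emb hβ.2.1 zK hw (β : ℂ) (self_root β)
  have h0 : zK = 0 := rfl
  rw [h0, map_zero] at hσ
  have : (β : ℝ) = 0 := by exact_mod_cast hσ.symm
  linarith [hβ.1]

/-- Conjugates other than `β, β⁻¹` lie on the unit circle. -/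
lemma norm_root {w : ℂ} (hw : aeval w (minpoly ℤ β) = 0) (h1 : w ≠ β) (h2 : w ≠ (β : ℂ)⁻¹) : ‖w‖ = 1 := by
  apply le_antisymm (hβ.2.2.1 w hw h1)
  have h3 := hβ.2.2.1 w⁻¹ (inv_root hβ hw) (by
    intro h; apply h2; rw [← h, inv_inv])
  rw [norm_inv] at h3
  have hpos : 0 < ‖w‖ := norm_pos_iff.2 (root_ne_zero hβ hw)
  exact (inv_le_one₀ hpos).1 h3

/-- Real roots are `β, β⁻¹` only. -/
lemma im_ne_zero {w : ℂ} (hw : aeval w (minpoly ℤ β) = 0) (hn : ‖w‖ = 1) : w.im ≠ 0 := by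
  intro him
  have hw0 := root_ne_zero hβ hw
  have hinv : w⁻¹ = w := by
    have : w⁻¹ = (starRingEnd ℂ) w := by
      rw [Complex.inv_def, Complex.normSq_eq_norm_sq, hn]; simp
    rw [this, Complex.conj_eq_iff_im]; exact him
  let zK : K := ⟨w, mem_K_of_root (salem_ne hβ) hw⟩
  obtain ⟨σ, hσ⟩ := exists_emb hβ.2.1 zK hw (β : ℂ) (self_root β)
  have h1 : zK⁻¹ = zK := by
    apply Subtype.ext; exact hinv
  have h2 : (β : ℂ)⁻¹ = β := by
    rw [← hσ, ← map_inv₀, h1]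
  have h3 : (β : ℝ)⁻¹ = β := by exact_mod_cast h2
  have h4 : β⁻¹ < 1 := inv_lt_one_of_one_lt₀ hβ.1
  linarith [hβ.1]

lemma inv_norm_lt : ‖((β : ℂ))⁻¹‖ < 1 := by
  rw [norm_inv, Complex.norm_real, Real.norm_eq_abs, abs_of_pos (by linarith [hβ.1])]
  exact inv_lt_one_of_one_lt₀ hβ.1

lemma norm_beta : ‖(β : ℂ)‖ = β := by
  rw [Complex.norm_real, Real.norm_eq_abs, abs_of_pos (by linarith [hβ.1])]

/-- A root of modulus larger than one is `β`. -/
lemma eq_of_norm {w : ℂ} (hw : aeval w (minpoly ℤ β) = 0) (h : 1 < ‖w‖) : w = β := by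
  by_contra hne
  exact absurd (hβ.2.2.1 w hw hne) (not_le.2 h)

/-- `z ↦ z ^ k` is injective on the conjugates. -/
lemma pow_inj {k : ℕ} (hk : 1 ≤ k) {z w : ℂ} (hz : aeval z (minpoly ℤ β) = 0) (hw : aeval w (minpoly ℤ β) = 0)
    (h : z^k = w^k) : z = w := by
  let zK : K := ⟨z, mem_K_of_root (salem_ne hβ) hz⟩
  let wK : K := ⟨w, mem_K_of_root (salem_ne hβ) hw⟩
  obtain ⟨σ, hσ⟩ := exists_emb hβ.2.1 zK hz (β : ℂ) (self_root β)
  have h1 : zK^k = wK^k := Subtype.ext h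
  have h2 : (β : ℂ)^k = (σ wK)^k := by rw [← hσ, ← map_pow, h1, map_pow]
  have h3 : ‖σ wK‖ = β := by
    have h4 : ‖σ wK‖^k = β^k := by
      rw [← norm_pow, ← h2, norm_pow, norm_beta hβ]
    exact (pow_left_inj₀ (norm_nonneg _) (by linarith [hβ.1]) (by omega)).1 h4
  have h5 : σ wK = β := eq_of_norm hβ (aeval_emb hβ.2.1 σ wK _ hw) (by rw [h3]; exact hβ.1)
  have h6 : σ zK = σ wK := by rw [hσ, h5]
  have h7 : zK = wK := σ.toRingHom.injective h6
  exact congrArg Subtype.val h7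

lemma isIntegral_pow (k : ℕ) : IsIntegral ℤ (β^k) := hβ.2.1.pow k

/-- Conjugates of `β ^ k` are the `k`-th powers of the conjugates of `β`. -/
lemma root_pow_iff {k : ℕ} (y : ℂ) :
    aeval y (minpoly ℤ (β^k)) = 0 ↔ ∃ z : ℂ, aeval z (minpoly ℤ β) = 0 ∧ y = z^k := by
  have hself := self_root β
  let bK : K := ⟨(β : ℂ), mem_K_of_root (salem_ne hβ) hself⟩
  have hbk : aeval (((bK^k : K)) : ℂ) (minpoly ℤ (β^k)) = 0 := by
    have := self_root (β^k)
    push_cast at this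
    exact this
  constructor
  · intro hy
    obtain ⟨σ, hσ⟩ := exists_emb (isIntegral_pow hβ k) (bK^k) hbk y hy
    refine ⟨σ bK, aeval_emb hβ.2.1 σ bK _ hself, ?_⟩
    rw [← hσ, map_pow]
  · rintro ⟨z, hz, rfl⟩
    obtain ⟨σ, hσ⟩ := exists_emb hβ.2.1 bK hself z hz
    have := aeval_emb hβ.2.1 σ (bK^k) _ hbk
    rwa [map_pow, hσ] at this

/-- Powers of Salem numbers are Salem numbers. -/
lemma salem_pow {k : ℕ} (hk : 1 ≤ k) : IsSalem (β^k) := by
  refine ⟨one_lt_pow₀ hβ.1 (by omega), isIntegral_pow hβ k, ?_, ?_⟩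
  · intro y hy hne
    obtain ⟨z, hz, rfl⟩ := (root_pow_iff hβ y).1 hy
    have : z ≠ β := by
      rintro rfl; apply hne; push_cast; rfl
    rw [norm_pow]
    exact pow_le_one₀ (norm_nonneg _) (hβ.2.2.1 z hz this)
  · obtain ⟨z, hz, hz1⟩ := hβ.2.2.2
    exact ⟨z^k, (root_pow_iff hβ _).2 ⟨z, hz, rfl⟩, by rw [norm_pow, hz1, one_pow]⟩

end Salem

end Pool.Agent.Helper3
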