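import Mathlib
import Pool.Agent.Helper3.Orbit
import Pool.Agent.Helper3.SalemRoots

/-! A family of Salem numbers of degree `2 M + 2` given by explicit conditions on the coefficients. -/

open Polynomial

namespace Pool.Agent.Helper3

/-- The palindromic integer polynomial `X^(2M+2) - ∑ c_i X^i + 1`. -/
noncomputable def famP (M : ℕ) (c : ℕ → ℤ) : ℤ[X] :=
  X ^ (2*M+2) + 1 - ∑ i ∈ Finset.Ico 1 (2*M+2), C (c i) * X ^ i

lemma famP_coeff (M : ℕ) (c : ℕ → ℤ) (n : ℕ) :
    (famP M c).coeff n = (if n = 2*M+2 then 1 else 0) + (if n = 0 then 1 else 0) - (if n ∈ Finset.Ico 1 (2*M+2) then c n else 0) := by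
  unfold famP
  rw [coeff_sub, coeff_add, coeff_X_pow, coeff_one, finsetSum_coeff]
  congr 1
  simp only [coeff_C_mul, coeff_X_pow, mul_ite, mul_one, mul_zero]
  rw [Finset.sum_ite_eq]

lemma famP_natDegree (M : ℕ) (c : ℕ → ℤ) : (famP M c).natDegree = 2*M+2 ∧ (famP M c).Monic := by
  have h1 : (famP M c).natDegree ≤ 2*M+2 := by
    rw [natDegree_le_iff_coeff_eq_zero]
    intro N hN
    rw [famP_coeff, if_neg (by omega), if_neg (by omega), if_neg (by rw [Finset.mem_Ico]; omega)]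
    ring
  have h2 : (famP M c).coeff (2*M+2) = 1 := by
    rw [famP_coeff, if_pos rfl, if_neg (by omega), if_neg (by rw [Finset.mem_Ico]; omega)]
    ring
  have h3 : (famP M c).natDegree = 2*M+2 := by
    apply le_antisymm h1
    apply le_natDegree_of_ne_zero
    rw [h2]; norm_num
  refine ⟨h3, ?_⟩
  unfold Monic leadingCoeff
  rw [h3, h2]

lemma irreducible_of_form (m : ℕ) (hm : 1 ≤ m) (P G : ℤ[X]) (hP : P = (X+1)^(2*m) + C 2 * X^m + C 4 * G)
    (hmon : P.Monic) (hdeg : P.natDegree = 2*m) : Irreducible P := by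
  have hirr : Irreducible (taylor (-1) P) := by
    have hT : taylor (-1) P = X^(2*m) + C 2 * (X + C (-1))^m + C 4 * taylor (-1) G := by
      rw [hP]
      rw [map_add, map_add, taylor_mul, taylor_mul, taylor_pow, taylor_pow, map_add, taylor_X, taylor_one, taylor_C, taylor_C]
      have : (X + C (-1) + C 1 : ℤ[X]) = X := by
        rw [add_assoc, ← C_add]; simp
      rw [this]
    have hTmon : (taylor (-1) P).Monic := by
      unfold Monic; rw [leadingCoeff_taylor]; exact hmon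
    have hTdeg : (taylor (-1) P).natDegree = 2*m := by rw [natDegree_taylor, hdeg]
    have hE : (taylor (-1) P).IsEisensteinAt (Ideal.span {(2:ℤ)}) := by
      refine ⟨?_, ?_, ?_⟩
      · rw [hTmon.leadingCoeff, Ideal.mem_span_singleton]; norm_num
      · intro n hn
        rw [hTdeg] at hn
        rw [Ideal.mem_span_singleton, hT, coeff_add, coeff_add, coeff_X_pow, if_neg (by omega), coeff_C_mul, coeff_C_mul]
        refine ⟨((X + C (-1))^m : ℤ[X]).coeff n + 2 * (taylor (-1) G).coeff n, by ring⟩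
      · rw [hT, Ideal.span_singleton_pow, Ideal.mem_span_singleton, coeff_zero_eq_eval_zero]
        simp only [eval_add, eval_mul, eval_pow, eval_X, eval_C, zero_add]
        rw [zero_pow (by omega), zero_add]
        intro h
        have h2 : ((2:ℤ)^2) ∣ 2 * (-1)^m := by
          have h3 : ((2:ℤ)^2) ∣ 4 * (taylor (-1) G).eval 0 := ⟨(taylor (-1) G).eval 0, by ring⟩
          exact (Int.dvd_add_left h3).1 h
        rcases neg_one_pow_eq_or ℤ m with h4 | h4 <;> rw [h4] at h2 <;> norm_num at h2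
    exact hE.irreducible ((Ideal.span_singleton_prime (by norm_num)).2 Int.prime_two) hTmon.isPrimitive (by rw [hTdeg]; omega)
  have h := MulEquiv.irreducible_iff (taylorEquiv (-1 : ℤ)) (x := P)
  exact h.1 hirr

section Fam

variable (M : ℕ) (c : ℕ → ℤ)

/-- evaluation at a complex number -/
noncomputable def pc (z : ℂ) : ℂ := z^(2*M+2) + 1 - ∑ i ∈ Finset.Ico 1 (2*M+2), (c i : ℂ) * z^i

lemma aeval_famP (z : ℂ) : aeval z (famP M c) = pc M c z := by
  unfold famP pc
  simp [map_sum]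

variable {M c}
variable (hM : 1 ≤ M) (hpal : ∀ i, 1 ≤ i → i < 2*M+2 → c (2*M+2-i) = c i)
  (hnn : ∀ i, 2 ≤ i → i < 2*M+1 → 0 ≤ c i)
  (hsum : ∑ i ∈ Finset.Ico 2 (2*M+1), c i + 2 ≤ c 1)

include hpal in
lemma pc_inv (z : ℂ) (hz : z ≠ 0) : z^(2*M+2) * pc M c z⁻¹ = pc M c z := by
  unfold pc
  have h1 : z^(2*M+2) * (z⁻¹)^(2*M+2) = 1 := by rw [← mul_pow, mul_inv_cancel₀ hz, one_pow]
  have h2 : z^(2*M+2) * ∑ i ∈ Finset.Ico 1 (2*M+2), (c i : ℂ) * (z⁻¹)^i = ∑ i ∈ Finset.Ico 1 (2*M+2), (c i : ℂ) * z^i := by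
    rw [Finset.mul_sum]
    apply Finset.sum_nbij' (fun i => 2*M+2 - i) (fun i => 2*M+2 - i)
    · intro i hi; rw [Finset.mem_Ico] at hi ⊢; omega
    · intro i hi; rw [Finset.mem_Ico] at hi ⊢; omega
    · intro i hi; rw [Finset.mem_Ico] at hi; omega
    · intro i hi; rw [Finset.mem_Ico] at hi; omega
    · intro i hi
      rw [Finset.mem_Ico] at hi
      rw [hpal i hi.1 hi.2]
      have : z^(2*M+2) = z^(2*M+2-i) * z^i := by rw [← pow_add]; congr 1; omega
      rw [this]
      have h3 : z^i * (z⁻¹)^i = 1 := by rw [← mul_pow, mul_inv_cancel₀ hz, one_pow]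
      linear_combination (z^(2*M+2-i) * (c i : ℂ)) * h3
  calc z^(2*M+2) * ((z⁻¹)^(2*M+2) + 1 - ∑ i ∈ Finset.Ico 1 (2*M+2), (c i : ℂ) * (z⁻¹)^i)
      = z^(2*M+2) * (z⁻¹)^(2*M+2) + z^(2*M+2) - (z^(2*M+2) * ∑ i ∈ Finset.Ico 1 (2*M+2), (c i : ℂ) * (z⁻¹)^i) := by ring
    _ = _ := by rw [h1, h2]; ring

lemma conj_pc (z : ℂ) : (starRingEnd ℂ) (pc M c z) = pc M c ((starRingEnd ℂ) z) := by
  unfold pc
  simp [map_sum]

include hpal in
lemma rot_real' (z : ℂ) (hz : ‖z‖ = 1) : ((z⁻¹)^(M+1) * pc M c z).im = 0 := by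
  have hz0 : z ≠ 0 := by intro h; rw [h] at hz; simp at hz
  have hc : (starRingEnd ℂ) z = z⁻¹ := by
    rw [Complex.inv_def, Complex.normSq_eq_norm_sq, hz]; simp
  rw [← Complex.conj_eq_iff_im, map_mul, map_pow, map_inv₀, hc, inv_inv, conj_pc, hc]
  have := pc_inv hpal z hz0
  have h1 : (z⁻¹)^(M+1) * z^(2*M+2) = z^(M+1) := by
    rw [show 2*M+2 = (M+1)+(M+1) by ring, pow_add z (M+1) (M+1), ← mul_assoc, ← mul_pow, inv_mul_cancel₀ hz0, one_pow, one_mul]
  rw [← this, ← mul_assoc, h1]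

lemma sum_split (f : ℕ → ℂ) (hM : 1 ≤ M) : ∑ i ∈ Finset.Ico 1 (2*M+2), f i = f 1 + ∑ i ∈ Finset.Ico 2 (2*M+1), f i + f (2*M+1) := by
  rw [show 2*M+2 = (2*M+1)+1 by ring, Finset.sum_Ico_succ_top (by omega), Finset.sum_eq_sum_Ico_succ_bot (by omega)]

lemma sum_split_real (f : ℕ → ℝ) (hM : 1 ≤ M) : ∑ i ∈ Finset.Ico 1 (2*M+2), f i = f 1 + ∑ i ∈ Finset.Ico 2 (2*M+1), f i + f (2*M+1) := by
  rw [show 2*M+2 = (2*M+1)+1 by ring, Finset.sum_Ico_succ_top (by omega), Finset.sum_eq_sum_Ico_succ_bot (by omega)]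

include hM hpal hnn hsum in
lemma exists_angles' : ∀ k : ℕ, ∃ φ : ℝ, (k : ℝ) * Real.pi / M < φ ∧ φ < ((k:ℝ) + 1) * Real.pi / M ∧ pc M c (Complex.exp (φ * Complex.I)) = 0 := by
  intro k
  have hMr : (0:ℝ) < M := by exact_mod_cast hM
  have hc1 : (2:ℤ) ≤ c 1 := by
    have : 0 ≤ ∑ i ∈ Finset.Ico 2 (2*M+1), c i := Finset.sum_nonneg (fun i hi => by
      rw [Finset.mem_Ico] at hi; exact hnn i hi.1 hi.2)
    linarith
  let g : ℝ → ℝ := fun φ => (-1)^k * (((Complex.exp (φ * Complex.I))⁻¹)^(M+1) * pc M c (Complex.exp (φ * Complex.I))).re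
  have hg : Continuous g := by
    have h0 : ∀ φ : ℝ, Complex.exp (φ * Complex.I) ≠ 0 := fun φ => Complex.exp_ne_zero _
    have h1 : Continuous (fun φ : ℝ => (Complex.exp (φ * Complex.I))⁻¹) := by
      apply Continuous.inv₀ (by fun_prop) h0
    have h2 : Continuous (fun φ : ℝ => pc M c (Complex.exp (φ * Complex.I))) := by
      unfold pc
      apply Continuous.sub (by fun_prop)
      apply continuous_finsetSum
      intro i _
      fun_prop
    exact continuous_const.mul (Complex.continuous_re.comp ((h1.pow (M+1)).mul h2))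
  -- value at the nodes
  have hnode : ∀ j : ℕ, (-1)^j * (((Complex.exp ((((j:ℝ) * Real.pi / M : ℝ) : ℂ) * Complex.I))⁻¹)^(M+1) * pc M c (Complex.exp ((((j:ℝ) * Real.pi / M : ℝ) : ℂ) * Complex.I))).re < 0 := by
    intro j
    set z := Complex.exp ((((j:ℝ) * Real.pi / M : ℝ) : ℂ) * Complex.I) with hz
    have hzn : ‖z‖ = 1 := Complex.norm_exp_ofReal_mul_I _
    have hz0 : z ≠ 0 := Complex.exp_ne_zero _
    have hzM : z^M = (-1)^j := by
      rw [hz, ← Complex.exp_nat_mul]
      have : (M:ℂ) * ((((j:ℝ) * Real.pi / M : ℝ) : ℂ) * Complex.I) = (j:ℂ) * (Real.pi * Complex.I) := by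
        have : (M:ℂ) ≠ 0 := by exact_mod_cast hMr.ne'
        push_cast; field_simp
      rw [this, Complex.exp_nat_mul, Complex.exp_pi_mul_I]
    have hzMi : (z⁻¹)^M = (-1)^j := by
      rw [inv_pow, hzM, ← inv_pow]; norm_num
    set S := ∑ i ∈ Finset.Ico 2 (2*M+1), (c i : ℂ) * z^i with hS
    have hSn : ‖S‖ ≤ (c 1 : ℝ) - 2 := by
      rw [hS]
      refine (norm_sum_le _ _).trans ?_
      have : ∀ i ∈ Finset.Ico 2 (2*M+1), ‖(c i : ℂ) * z^i‖ = (c i : ℝ) := by
        intro i hi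
        rw [Finset.mem_Ico] at hi
        rw [norm_mul, norm_pow, hzn, one_pow, mul_one, Complex.norm_intCast, abs_of_nonneg]
        exact_mod_cast hnn i hi.1 hi.2
      rw [Finset.sum_congr rfl this]
      have h2 : ((∑ i ∈ Finset.Ico 2 (2*M+1), c i + 2 : ℤ) : ℝ) ≤ (c 1 : ℝ) := by exact_mod_cast hsum
      push_cast at h2
      linarith
    have hc2 : c (2*M+1) = c 1 := by
      have := hpal 1 le_rfl (by omega)
      rwa [show 2*M+2-1 = 2*M+1 by omega] at this
    have hval : (z⁻¹)^(M+1) * pc M c z = (z^(M+1) + (z⁻¹)^(M+1)) - 2 * (c 1 : ℂ) * (-1)^j - (z⁻¹)^(M+1) * S := by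
      unfold pc
      rw [sum_split _ hM, hc2, ← hS]
      have e1 : (z⁻¹)^(M+1) * z^(2*M+2) = z^(M+1) := by
        rw [show 2*M+2 = (M+1)+(M+1) by ring, pow_add z (M+1) (M+1), ← mul_assoc, ← mul_pow, inv_mul_cancel₀ hz0, one_pow, one_mul]
      have e2 : (z⁻¹)^(M+1) * z^1 = (-1)^j := by
        rw [pow_succ, mul_assoc, pow_one, inv_mul_cancel₀ hz0, mul_one, hzMi]
      have e3 : (z⁻¹)^(M+1) * z^(2*M+1) = (-1)^j := by
        rw [show 2*M+1 = (M+1)+M by ring, pow_add z (M+1) M, ← mul_assoc, ← mul_pow, inv_mul_cancel₀ hz0, one_pow, one_mul, hzM]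
      linear_combination e1 - (c 1 : ℂ) * e2 - (c 1 : ℂ) * e3
    rw [hval]
    have e4 : ((-1:ℂ)^j) = (((-1:ℝ)^j : ℝ) : ℂ) := by push_cast; rfl
    rw [e4, Complex.sub_re, Complex.sub_re]
    have e5 : (2 * (c 1 : ℂ) * (((-1:ℝ)^j : ℝ) : ℂ)).re = 2 * (c 1 : ℝ) * (-1)^j := by
      have : (2 * (c 1 : ℂ) * (((-1:ℝ)^j : ℝ) : ℂ)) = ((2 * (c 1 : ℝ) * (-1)^j : ℝ) : ℂ) := by push_cast; ring
      rw [this, Complex.ofReal_re]
    rw [e5]
    set A := (z^(M+1) + (z⁻¹)^(M+1)).re with hA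
    set B := ((z⁻¹)^(M+1) * S).re with hB
    have hAn : |A| ≤ 2 := by
      refine (Complex.abs_re_le_norm _).trans ?_
      refine (norm_add_le _ _).trans ?_
      rw [norm_pow, norm_pow, norm_inv, hzn]; norm_num
    have hBn : |B| ≤ (c 1 : ℝ) - 2 := by
      refine (Complex.abs_re_le_norm _).trans ?_
      rw [norm_mul, norm_pow, norm_inv, hzn]
      simpa using hSn
    have hc1r : (2:ℝ) ≤ c 1 := by exact_mod_cast hc1
    have hA' := abs_le.1 hAn
    have hB' := abs_le.1 hBn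
    rcases neg_one_pow_eq_or ℝ j with h | h <;> rw [h] <;> nlinarith
  have ha : g ((k:ℝ) * Real.pi / M) < 0 := by
    have := hnode k
    show (-1)^k * _ < 0
    linarith
  have hb : 0 < g (((k:ℝ) + 1) * Real.pi / M) := by
    have := hnode (k+1)
    show 0 < (-1)^k * _
    rw [pow_succ] at this
    push_cast at this ⊢
    linarith
  have hab : (k:ℝ) * Real.pi / M ≤ ((k:ℝ) + 1) * Real.pi / M := by
    have := Real.pi_pos
    gcongr
    linarith
  obtain ⟨φ, hφ, hφ0⟩ := intermediate_value_Ioo hab hg.continuousOn ⟨ha, hb⟩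
  refine ⟨φ, hφ.1, hφ.2, ?_⟩
  have h1 : (((Complex.exp (φ * Complex.I))⁻¹)^(M+1) * pc M c (Complex.exp (φ * Complex.I))).re = 0 := by
    have h2 : (-1:ℝ)^k ≠ 0 := pow_ne_zero _ (by norm_num)
    exact (mul_eq_zero.1 hφ0).resolve_left h2
  have h2 := rot_real' hpal (Complex.exp (φ * Complex.I)) (Complex.norm_exp_ofReal_mul_I _)
  have h3 : ((Complex.exp (φ * Complex.I))⁻¹)^(M+1) * pc M c (Complex.exp (φ * Complex.I)) = 0 := Complex.ext h1 h2
  exact (mul_eq_zero.1 h3).resolve_left (pow_ne_zero _ (inv_ne_zero (Complex.exp_ne_zero _)))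

include hM hpal hnn hsum in
lemma exists_real_root : ∃ β : ℝ, (c 1 : ℝ) < β ∧ β < c 1 + 1 ∧ pc M c (β : ℂ) = 0 := by
  have hc1 : (2:ℤ) ≤ c 1 := by
    have : 0 ≤ ∑ i ∈ Finset.Ico 2 (2*M+1), c i := Finset.sum_nonneg (fun i hi => by
      rw [Finset.mem_Ico] at hi; exact hnn i hi.1 hi.2)
    linarith
  set a : ℝ := (c 1 : ℝ) with ha
  have ha2 : (2:ℝ) ≤ a := by rw [ha]; exact_mod_cast hc1
  let f : ℝ → ℝ := fun x => x^(2*M+2) + 1 - ∑ i ∈ Finset.Ico 1 (2*M+2), (c i : ℝ) * x^i
  have hf : Continuous f := by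
    apply Continuous.sub (by fun_prop)
    apply continuous_finsetSum
    intro i _
    fun_prop
  have hc2 : c (2*M+1) = c 1 := by
    have := hpal 1 le_rfl (by omega)
    rwa [show 2*M+2-1 = 2*M+1 by omega] at this
  have hfa : f a < 0 := by
    show a^(2*M+2) + 1 - ∑ i ∈ Finset.Ico 1 (2*M+2), (c i : ℝ) * a^i < 0
    rw [sum_split_real _ hM, hc2, ← ha]
    have h1 : 0 ≤ ∑ i ∈ Finset.Ico 2 (2*M+1), (c i : ℝ) * a^i := by
      apply Finset.sum_nonneg
      intro i hi
      rw [Finset.mem_Ico] at hi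
      have : (0:ℝ) ≤ c i := by exact_mod_cast hnn i hi.1 hi.2
      positivity
    have h2 : a^(2*M+2) = a * a^(2*M+1) := by ring
    rw [h2]
    nlinarith
  have hfb : 0 < f (a+1) := by
    show 0 < (a+1)^(2*M+2) + 1 - ∑ i ∈ Finset.Ico 1 (2*M+2), (c i : ℝ) * (a+1)^i
    rw [sum_split_real _ hM, hc2, ← ha]
    have h1 : ∑ i ∈ Finset.Ico 2 (2*M+1), (c i : ℝ) * (a+1)^i ≤ (a - 2) * (a+1)^(2*M) := by
      have h2 : ∑ i ∈ Finset.Ico 2 (2*M+1), (c i : ℝ) * (a+1)^i ≤ ∑ i ∈ Finset.Ico 2 (2*M+1), (c i : ℝ) * (a+1)^(2*M) := by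
        apply Finset.sum_le_sum
        intro i hi
        rw [Finset.mem_Ico] at hi
        have : (0:ℝ) ≤ c i := by exact_mod_cast hnn i hi.1 hi.2
        apply mul_le_mul_of_nonneg_left _ this
        exact pow_le_pow_right₀ (by linarith) (by omega)
      rw [← Finset.sum_mul] at h2
      refine h2.trans ?_
      apply mul_le_mul_of_nonneg_right _ (by positivity)
      have h3 : ((∑ i ∈ Finset.Ico 2 (2*M+1), c i + 2 : ℤ) : ℝ) ≤ (c 1 : ℝ) := by exact_mod_cast hsum
      push_cast at h3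
      linarith
    have h4 : (a+1)^2 ≤ (a+1)^(2*M) := pow_le_pow_right₀ (by linarith) (by omega)
    have h5 : (a+1)^(2*M+2) = (a+1)^2 * (a+1)^(2*M) := by ring
    have h6 : (a+1)^(2*M+1) = (a+1) * (a+1)^(2*M) := by ring
    rw [h5, h6]
    nlinarith
  obtain ⟨β, hβ, hβ0⟩ := intermediate_value_Ioo (show a ≤ a+1 by linarith) hf.continuousOn ⟨hfa, hfb⟩
  refine ⟨β, hβ.1, hβ.2, ?_⟩
  have : pc M c (β : ℂ) = ((f β : ℝ) : ℂ) := by
    show _ = ((β^(2*M+2) + 1 - ∑ i ∈ Finset.Ico 1 (2*M+2), (c i : ℝ) * β^i : ℝ) : ℂ)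
    unfold pc; push_cast; rfl
  rw [this, hβ0]; simp


include hM hpal hnn hsum in
/-- The main properties of the family. -/
theorem fam_spec (hmod : ∀ i, 1 ≤ i → i < 2*M+2 → (4:ℤ) ∣ c i + (2*M+2).choose i + (if i = M+1 then 2 else 0)) :
    ∃ β : ℝ, (c 1 : ℝ) < β ∧ β < c 1 + 1 ∧ minpoly ℤ β = famP M c ∧ IsSalem β ∧
      (T β)^[2*M+2] 1 = (T β)^[1] 1 := by
  classical
  have hMr : (0:ℝ) < M := by exact_mod_cast hM
  have hπ := Real.pi_pos
  have hc1 : (2:ℤ) ≤ c 1 := by
    have : 0 ≤ ∑ i ∈ Finset.Ico 2 (2*M+1), c i := Finset.sum_nonneg (fun i hi => by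
      rw [Finset.mem_Ico] at hi; exact hnn i hi.1 hi.2)
    linarith
  have hc1r : (2:ℝ) ≤ c 1 := by exact_mod_cast hc1
  obtain ⟨β, hβ1, hβ2, hβ0⟩ := exists_real_root hM hpal hnn hsum
  have hβgt : 1 < β := by linarith
  have hβne : (β : ℂ) ≠ 0 := by exact_mod_cast (by linarith : (0:ℝ) < β).ne'
  obtain ⟨hdeg, hmon⟩ := famP_natDegree M c
  -- irreducibility
  have hirr : Irreducible (famP M c) := by
    have hdiv : (C (4:ℤ)) ∣ famP M c - ((X+1)^(2*(M+1)) + C 2 * X^(M+1)) := by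
      rw [C_dvd_iff_dvd_coeff]
      intro i
      rw [coeff_sub, coeff_add, coeff_X_add_one_pow, coeff_C_mul, coeff_X_pow, famP_coeff]
      rw [show 2*(M+1) = 2*M+2 by ring]
      rcases Nat.eq_zero_or_pos i with h0 | h0
      · subst h0
        rw [if_neg (by omega), if_pos rfl, if_neg (by rw [Finset.mem_Ico]; omega), if_neg (by omega)]
        simp
      rcases lt_trichotomy i (2*M+2) with h | h | h
      · rw [if_neg (by omega), if_neg (by omega), if_pos (Finset.mem_Ico.2 ⟨h0, h⟩)]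
        obtain ⟨t, ht⟩ := hmod i h0 h
        refine ⟨-t, ?_⟩
        have : c i = 4 * t - (2*M+2).choose i - (if i = M+1 then 2 else 0) := by linarith
        rw [this]
        split_ifs <;> ring
      · subst h
        rw [if_pos rfl, if_neg (by omega), if_neg (by rw [Finset.mem_Ico]; omega), if_neg (by omega)]
        simp
      · rw [if_neg (by omega), if_neg (by omega), if_neg (by rw [Finset.mem_Ico]; omega), if_neg (by omega),
          Nat.choose_eq_zero_of_lt h]
        simp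
    obtain ⟨G, hG⟩ := hdiv
    exact irreducible_of_form (M+1) (by omega) (famP M c) G (by rw [← hG]; ring) hmon (by rw [hdeg]; ring)
  have haeval : aeval β (famP M c) = 0 := by
    have h1 : aeval (β : ℂ) (famP M c) = ((aeval β (famP M c) : ℝ) : ℂ) := aeval_real β _
    rw [aeval_famP, hβ0] at h1
    exact_mod_cast h1.symm
  have hint : IsIntegral ℤ β := ⟨famP M c, hmon, by rw [← aeval_def]; exact haeval⟩
  have hmin : minpoly ℤ β = famP M c := by
    have h1 : Irreducible ((famP M c).map (algebraMap ℤ ℚ)) :=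
      (Monic.irreducible_iff_irreducible_map_fraction_map hmon).1 hirr
    have h2 : minpoly ℚ β = (famP M c).map (algebraMap ℤ ℚ) := by
      symm
      apply minpoly.eq_of_irreducible_of_monic h1
      · rw [aeval_map_algebraMap]; exact haeval
      · exact hmon.map _
    rw [← minpoly_map_Q hint] at h2
    exact Polynomial.map_injective _ (RingHom.injective_int _) h2
  -- roots on the unit circle
  choose φ hφ using exists_angles' hM hpal hnn hsum
  have hφpos : ∀ i : Fin M, 0 < φ i := fun i => lt_of_le_of_lt (by positivity) (hφ i).1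
  have hφlt : ∀ i : Fin M, φ i < Real.pi := by
    intro i
    refine (hφ i).2.1.trans_le ?_
    rw [div_le_iff₀ hMr]
    have : ((i:ℕ):ℝ) + 1 ≤ M := by exact_mod_cast i.2
    nlinarith
  have hφinj : ∀ i j : Fin M, φ i = φ j → i = j := by
    have key : ∀ i j : Fin M, i < j → φ i < φ j := by
      intro i j hij
      refine (hφ i).2.1.trans_le (le_trans ?_ (hφ j).1.le)
      have : ((i:ℕ):ℝ) + 1 ≤ (j:ℕ) := by exact_mod_cast hij
      gcongr
    intro i j h
    rcases lt_trichotomy i j with h1 | h1 | h1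
    · exact absurd h (key i j h1).ne
    · exact h1
    · exact absurd h (key j i h1).ne'
  let w : Fin M → ℂ := fun i => Complex.exp (φ i * Complex.I)
  have hwn : ∀ i, ‖w i‖ = 1 := fun i => Complex.norm_exp_ofReal_mul_I _
  have hwre : ∀ i, (w i).re = Real.cos (φ i) := fun i => Complex.exp_ofReal_mul_I_re _
  have hwim : ∀ i, (w i).im = Real.sin (φ i) := fun i => Complex.exp_ofReal_mul_I_im _
  have hwimpos : ∀ i, 0 < (w i).im := fun i => by
    rw [hwim]; exact Real.sin_pos_of_pos_of_lt_pi (hφpos i) (hφlt i)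
  have hwinj : Function.Injective w := by
    intro i j h
    apply hφinj
    have h1 : Real.cos (φ i) = Real.cos (φ j) := by rw [← hwre, ← hwre, h]
    exact Real.injOn_cos ⟨(hφpos i).le, (hφlt i).le⟩ ⟨(hφpos j).le, (hφlt j).le⟩ h1
  have hcinj : Function.Injective (fun i => (starRingEnd ℂ) (w i)) := by
    intro i j h
    exact hwinj ((starRingEnd ℂ).injective h)
  let S : Finset ℂ := {(β : ℂ), (β : ℂ)⁻¹} ∪ (Finset.univ.image w ∪ Finset.univ.image (fun i => (starRingEnd ℂ) (w i)))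
  have hSmem : ∀ z, z ∈ S ↔ (z = β ∨ z = (β : ℂ)⁻¹) ∨ ((∃ i, w i = z) ∨ ∃ i, (starRingEnd ℂ) (w i) = z) := by
    intro z; simp [S, or_assoc]
  have hScard : S.card = 2*M+2 := by
    rw [Finset.card_union_of_disjoint, Finset.card_union_of_disjoint, Finset.card_image_of_injective _ hwinj,
      Finset.card_image_of_injective _ hcinj, Finset.card_pair]
    · simp; ring
    · intro h
      have h1 : (β : ℝ) = β⁻¹ := by exact_mod_cast h
      have h2 : β⁻¹ < 1 := inv_lt_one_of_one_lt₀ hβgt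
      linarith
    · rw [Finset.disjoint_left]
      intro x hx hx'
      simp only [Finset.mem_image, Finset.mem_univ, true_and] at hx hx'
      obtain ⟨i, rfl⟩ := hx
      obtain ⟨j, hj⟩ := hx'
      have h1 := hwimpos i
      have h2 := hwimpos j
      rw [← hj, Complex.conj_im] at h1
      linarith
    · rw [Finset.disjoint_left]
      intro z hz hz'
      have him : z.im = 0 := by
        rw [Finset.mem_insert, Finset.mem_singleton] at hz
        rcases hz with rfl | rfl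
        · simp
        · rw [← Complex.ofReal_inv, Complex.ofReal_im]
      rw [Finset.mem_union, Finset.mem_image, Finset.mem_image] at hz'
      rcases hz' with ⟨i, _, rfl⟩ | ⟨i, _, rfl⟩
      · have := hwimpos i; linarith
      · have := hwimpos i
        rw [Complex.conj_im] at him; linarith
  have hSroot : ∀ z ∈ S, pc M c z = 0 := by
    intro z hz
    rw [hSmem] at hz
    rcases hz with (rfl | rfl) | (⟨i, rfl⟩ | ⟨i, rfl⟩)
    · exact hβ0
    · have := pc_inv hpal (β : ℂ) hβne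
      rw [hβ0] at this
      exact (mul_eq_zero.1 this).resolve_left (pow_ne_zero _ hβne)
    · exact (hφ i).2.2
    · rw [← conj_pc]
      show (starRingEnd ℂ) (pc M c (w i)) = 0
      rw [show pc M c (w i) = 0 from (hφ i).2.2, map_zero]
  have hall : ∀ z : ℂ, aeval z (famP M c) = 0 → z ∈ S := by
    intro z hz
    by_contra hnot
    have hne : (famP M c).map (algebraMap ℤ ℂ) ≠ 0 := (hmon.map _).ne_zero
    have hsub : insert z S ⊆ ((famP M c).map (algebraMap ℤ ℂ)).roots.toFinset := by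
      intro y hy
      rw [Multiset.mem_toFinset, mem_roots hne, IsRoot.def, eval_map_algebraMap]
      rw [Finset.mem_insert] at hy
      rcases hy with rfl | hy
      · exact hz
      · rw [aeval_famP]; exact hSroot y hy
    have h1 := Finset.card_le_card hsub
    rw [Finset.card_insert_of_notMem hnot, hScard] at h1
    have h2 := (Multiset.toFinset_card_le _).trans (card_roots' ((famP M c).map (algebraMap ℤ ℂ)))
    rw [hmon.natDegree_map, hdeg] at h2
    omega
  have hinvn : ‖(β : ℂ)⁻¹‖ < 1 := by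
    rw [norm_inv, Complex.norm_real, Real.norm_eq_abs, abs_of_pos (by linarith)]
    exact inv_lt_one_of_one_lt₀ hβgt
  refine ⟨β, hβ1, hβ2, hmin, ⟨hβgt, hint, ?_, ?_⟩, ?_⟩
  · intro z hz hne
    rw [hmin] at hz
    have := hall z hz
    rw [hSmem] at this
    rcases this with (rfl | rfl) | (⟨i, rfl⟩ | ⟨i, rfl⟩)
    · exact absurd rfl hne
    · exact hinvn.le
    · exact (hwn i).le
    · rw [RCLike.norm_conj]; exact (hwn i).le
  · refine ⟨w ⟨0, hM⟩, ?_, hwn _⟩
    rw [hmin, aeval_famP]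
    exact (hφ _).2.2
  · -- the orbit of one
    have hβpos : 0 < β := by linarith
    let v : ℕ → ℝ := fun j => β^j - ∑ i ∈ Finset.Ico 1 (j+1), (c i : ℝ) * β^(j-i)
    have hv0 : v 0 = 1 := by simp [v]
    have hstep : ∀ j, β * v j = c (j+1) + v (j+1) := by
      intro j
      show β * (β^j - ∑ i ∈ Finset.Ico 1 (j+1), (c i : ℝ) * β^(j-i)) = c (j+1) + (β^(j+1) - ∑ i ∈ Finset.Ico 1 (j+1+1), (c i : ℝ) * β^(j+1-i))
      rw [Finset.sum_Ico_succ_top (show 1 ≤ j+1 by omega), mul_sub, Finset.mul_sum]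
      have : ∑ i ∈ Finset.Ico 1 (j+1), β * ((c i : ℝ) * β^(j-i)) = ∑ i ∈ Finset.Ico 1 (j+1), (c i : ℝ) * β^(j+1-i) := by
        apply Finset.sum_congr rfl
        intro i hi
        rw [Finset.mem_Ico] at hi
        rw [show j+1-i = (j-i)+1 by omega, pow_succ]; ring
      rw [this, Nat.sub_self, pow_zero, pow_succ]; ring
    have hlast : β * v (2*M+1) = -1 := by
      have h1 : pc M c (β : ℂ) = ((β^(2*M+2) + 1 - ∑ i ∈ Finset.Ico 1 (2*M+2), (c i : ℝ) * β^i : ℝ) : ℂ) := by
        unfold pc; push_cast; rfl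
      rw [hβ0] at h1
      have h2 : β^(2*M+2) + 1 - ∑ i ∈ Finset.Ico 1 (2*M+2), (c i : ℝ) * β^i = 0 := by exact_mod_cast h1.symm
      have h3 : ∑ i ∈ Finset.Ico 1 (2*M+2), (c i : ℝ) * β^i = β * ∑ i ∈ Finset.Ico 1 (2*M+1+1), (c i : ℝ) * β^(2*M+1-i) := by
        rw [Finset.mul_sum]
        apply Finset.sum_nbij' (fun i => 2*M+2 - i) (fun i => 2*M+2 - i)
        · intro i hi; rw [Finset.mem_Ico] at hi ⊢; omega
        · intro i hi; rw [Finset.mem_Ico] at hi ⊢; omega
        · intro i hi; rw [Finset.mem_Ico] at hi; omega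
        · intro i hi; rw [Finset.mem_Ico] at hi; omega
        · intro i hi
          rw [Finset.mem_Ico] at hi
          rw [hpal i hi.1 hi.2]
          have : β^i = β * β^(2*M+1-(2*M+2-i)) := by
            rw [← pow_succ']; congr 1; omega
          rw [this]; ring
      show β * (β^(2*M+1) - ∑ i ∈ Finset.Ico 1 (2*M+1+1), (c i : ℝ) * β^(2*M+1-i)) = -1
      rw [mul_sub, ← h3, ← pow_succ']
      linarith
    have hvlast : v (2*M+1) = -(1/β) := by
      field_simp
      linarith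
    have hc2 : c (2*M+1) = c 1 := by
      have := hpal 1 le_rfl (by omega)
      rwa [show 2*M+2-1 = 2*M+1 by omega] at this
    have hinv1 : 1/β < 1 := by rw [div_lt_one hβpos]; exact hβgt
    have hinv0 : 0 < 1/β := by positivity
    -- descending induction
    have hv : ∀ d, d < 2*M → 0 ≤ v (2*M - d) ∧ v (2*M-d) < 1 := by
      intro d
      induction d with
      | zero =>
        intro _
        have h1 := hstep (2*M)
        rw [hvlast, hc2] at h1
        simp only [Nat.sub_zero]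
        have h2 : v (2*M) = (c 1 - 1/β)/β := by field_simp; field_simp at h1; linarith
        rw [h2]
        constructor
        · apply div_nonneg _ hβpos.le; linarith
        · rw [div_lt_one hβpos]; linarith
      | succ d ih =>
        intro hd
        have ih' := ih (by omega)
        have h1 := hstep (2*M - (d+1))
        have e1 : 2*M - (d+1) + 1 = 2*M - d := by omega
        rw [e1] at h1
        have hcn : (0:ℤ) ≤ c (2*M-d) ∧ c (2*M-d) ≤ c 1 - 2 := by
          have hmem : 2*M-d ∈ Finset.Ico 2 (2*M+1) := by rw [Finset.mem_Ico]; omega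
          constructor
          · rw [Finset.mem_Ico] at hmem; exact hnn _ hmem.1 hmem.2
          · have h5 := Finset.single_le_sum (f := c) (s := Finset.Ico 2 (2*M+1)) (fun i hi => by
              rw [Finset.mem_Ico] at hi; exact hnn i hi.1 hi.2) hmem
            linarith
        have hcr0 : (0:ℝ) ≤ c (2*M-d) := by exact_mod_cast hcn.1
        have hcr1 : (c (2*M-d) : ℝ) ≤ c 1 - 2 := by exact_mod_cast hcn.2
        have h2 : v (2*M - (d+1)) = (c (2*M-d) + v (2*M-d))/β := by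
          field_simp; linarith
        rw [h2]
        constructor
        · apply div_nonneg _ hβpos.le; linarith [ih'.1]
        · rw [div_lt_one hβpos]; linarith [ih'.2]
    apply orbit_periodic β hβgt (2*M) (by omega) v c hv0 (fun j _ => hstep j)
    · intro j hj1 hj2
      have := hv (2*M - j) (by omega)
      rwa [show 2*M - (2*M-j) = j by omega] at this
    · rw [hstep (2*M), hvlast]; ring

end Fam

end Pool.Agent.Helper3
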