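import Mathlib

/-! Products of quadratics with roots on the unit circle and small positive middle coefficients. -/

open Polynomial Filter Topology

namespace Pool.Agent.Helper3

/-- The real polynomial `∏ (X² - 2 cos(2π t_i) X + 1)`. -/
noncomputable def Rpoly (M : ℕ) (t : UnitAddTorus (Fin M)) : ℝ[X] :=
  ∏ i, (X ^ 2 - C (2 * (fourier 1 (t i)).re) * X + 1)

lemma quad_monic (a : ℝ) : (X ^ 2 - C a * X + 1 : ℝ[X]).Monic := by
  monicity!

lemma quad_natDegree (a : ℝ) : (X ^ 2 - C a * X + 1 : ℝ[X]).natDegree = 2 := by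
  compute_degree!

lemma Rpoly_monic (M : ℕ) (t : UnitAddTorus (Fin M)) : (Rpoly M t).Monic :=
  monic_prod_of_monic _ _ (fun _ _ => quad_monic _)

lemma Rpoly_natDegree (M : ℕ) (t : UnitAddTorus (Fin M)) : (Rpoly M t).natDegree = 2 * M := by
  unfold Rpoly
  rw [natDegree_prod_of_monic _ _ (fun i _ => quad_monic _)]
  simp only [quad_natDegree]
  simp [mul_comm]

lemma Rpoly_coeff_zero (M : ℕ) (t : UnitAddTorus (Fin M)) : (Rpoly M t).coeff 0 = 1 := by
  rw [coeff_zero_eq_eval_zero, Rpoly, eval_prod]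
  simp

lemma continuous_coeff_prod {α ι : Type*} [TopologicalSpace α] (s : Finset ι) (p : ι → α → ℝ[X])
    (hp : ∀ i j, Continuous (fun t => (p i t).coeff j)) :
    ∀ j, Continuous (fun t => (∏ i ∈ s, p i t).coeff j) := by
  classical
  induction s using Finset.induction_on with
  | empty => intro j; simp only [Finset.prod_empty]; exact continuous_const
  | insert i s hi ih =>
    intro j
    simp only [Finset.prod_insert hi, coeff_mul]
    apply continuous_finsetSum
    intro x _
    exact (hp i x.1).mul (ih x.2)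

lemma Rpoly_coeff_continuous (M j : ℕ) : Continuous (fun t => (Rpoly M t).coeff j) := by
  unfold Rpoly
  apply continuous_coeff_prod
  intro i j
  have : ∀ t : UnitAddTorus (Fin M), (X ^ 2 - C (2 * (fourier 1 (t i)).re) * X + 1 : ℝ[X]).coeff j =
      (X^2 + 1 : ℝ[X]).coeff j - (2 * (fourier 1 (t i)).re) * (X : ℝ[X]).coeff j := by
    intro t
    rw [show (X ^ 2 - C (2 * (fourier 1 (t i)).re) * X + 1 : ℝ[X]) = (X^2 + 1) - C (2 * (fourier 1 (t i)).re) * X by ring,
      coeff_sub, coeff_C_mul]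
  simp only [this]
  fun_prop

/-- The region of the torus with coefficients in `(δ, 1)`. -/
def region (M : ℕ) (δ : ℝ) : Set (UnitAddTorus (Fin M)) :=
  {t | ∀ i, 1 ≤ i → i < 2 * M → δ < (Rpoly M t).coeff i ∧ (Rpoly M t).coeff i < 1}

lemma region_open (M : ℕ) (δ : ℝ) : IsOpen (region M δ) := by
  have : region M δ = ⋂ i ∈ Finset.Ico 1 (2*M), ({t | δ < (Rpoly M t).coeff i} ∩ {t | (Rpoly M t).coeff i < 1}) := by
    ext t
    simp only [region, Set.mem_iInter, Finset.mem_Ico, Set.mem_inter_iff]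
    constructor
    · intro h i hi; exact h i hi.1 hi.2
    · intro h i h1 h2; exact h i ⟨h1, h2⟩
  rw [this]
  apply isOpen_biInter_finset
  intro i _
  apply IsOpen.inter
  · exact isOpen_lt continuous_const (Rpoly_coeff_continuous M i)
  · exact isOpen_lt (Rpoly_coeff_continuous M i) continuous_const

/-- The auxiliary palindromic polynomial. -/
noncomputable def Q (M : ℕ) (s : ℝ) : ℝ[X] := X^(2*M) + 1 + C s * ∑ i ∈ Finset.Ico 1 (2*M), X^i

lemma Q_coeff (M : ℕ) (s : ℝ) (i : ℕ) (h1 : 1 ≤ i) (h2 : i < 2*M) : (Q M s).coeff i = s := by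
  unfold Q
  rw [coeff_add, coeff_add, coeff_C_mul, finsetSum_coeff, coeff_X_pow, coeff_one]
  simp only [coeff_X_pow]
  rw [if_neg (by omega), if_neg (by omega), Finset.sum_ite_eq, if_pos (Finset.mem_Ico.2 ⟨h1, h2⟩)]
  ring

lemma Q_monic (M : ℕ) (hM : 1 ≤ M) (s : ℝ) : (Q M s).Monic ∧ (Q M s).natDegree = 2*M := by
  have h : (1 + C s * ∑ i ∈ Finset.Ico 1 (2*M), X^i : ℝ[X]).degree < (2*M : ℕ) := by
    refine (degree_add_le _ _).trans_lt ?_
    rw [max_lt_iff]
    constructor
    · rw [degree_one]; exact_mod_cast (by omega : 0 < 2*M)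
    · rw [← smul_eq_C_mul]
      refine (degree_smul_le _ _).trans_lt ?_
      refine (degree_sum_le _ _).trans_lt ?_
      rw [Finset.sup_lt_iff (by exact_mod_cast WithBot.bot_lt_coe (2*M))]
      intro i hi
      rw [degree_X_pow]
      exact_mod_cast (Finset.mem_Ico.1 hi).2
  have e : Q M s = X^(2*M) + (1 + C s * ∑ i ∈ Finset.Ico 1 (2*M), X^i) := by unfold Q; ring
  rw [e]
  exact ⟨monic_X_pow_add h, natDegree_eq_of_degree_eq_some (by rw [degree_add_eq_left_of_degree_lt (by rwa [degree_X_pow]), degree_X_pow])⟩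


/-- Evaluation of `Q` at a complex number. -/
noncomputable def q (M : ℕ) (s : ℝ) (z : ℂ) : ℂ := z^(2*M) + 1 + (s : ℂ) * ∑ i ∈ Finset.Ico 1 (2*M), z^i

lemma eval_Q (M : ℕ) (s : ℝ) (z : ℂ) : ((Q M s).map Complex.ofRealHom).eval z = q M s z := by
  unfold Q q
  simp only [Polynomial.map_add, Polynomial.map_mul, Polynomial.map_pow, map_X, Polynomial.map_one, map_C, Polynomial.map_sum,
    eval_add, eval_mul, eval_pow, eval_X, eval_one, eval_C, eval_finsetSum]
  rfl

lemma q_inv (M : ℕ) (s : ℝ) (z : ℂ) (hz : z ≠ 0) : z^(2*M) * q M s z⁻¹ = q M s z := by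
  unfold q
  have h1 : z^(2*M) * (z⁻¹)^(2*M) = 1 := by rw [← mul_pow, mul_inv_cancel₀ hz, one_pow]
  have h2 : z^(2*M) * ∑ i ∈ Finset.Ico 1 (2*M), (z⁻¹)^i = ∑ i ∈ Finset.Ico 1 (2*M), z^i := by
    rw [Finset.mul_sum]
    apply Finset.sum_nbij' (fun i => 2*M - i) (fun i => 2*M - i)
    · intro i hi; rw [Finset.mem_Ico] at hi ⊢; omega
    · intro i hi; rw [Finset.mem_Ico] at hi ⊢; omega
    · intro i hi; rw [Finset.mem_Ico] at hi; omega
    · intro i hi; rw [Finset.mem_Ico] at hi; omega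
    · intro i hi
      rw [Finset.mem_Ico] at hi
      have : z^(2*M) = z^(2*M-i) * z^i := by rw [← pow_add]; congr 1; omega
      rw [this, mul_assoc, ← mul_pow, mul_inv_cancel₀ hz, one_pow, mul_one]
  calc z^(2*M) * ((z⁻¹)^(2*M) + 1 + (s:ℂ) * ∑ i ∈ Finset.Ico 1 (2*M), (z⁻¹)^i)
      = z^(2*M) * (z⁻¹)^(2*M) + z^(2*M) + s * (z^(2*M) * ∑ i ∈ Finset.Ico 1 (2*M), (z⁻¹)^i) := by ring
    _ = _ := by rw [h1, h2]; ring

lemma conj_q (M : ℕ) (s : ℝ) (z : ℂ) : (starRingEnd ℂ) (q M s z) = q M s ((starRingEnd ℂ) z) := by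
  unfold q
  simp [map_sum]

/-- the rotated function is real on the unit circle -/
lemma rot_real (M : ℕ) (s : ℝ) (z : ℂ) (hz : ‖z‖ = 1) : ((z⁻¹)^M * q M s z).im = 0 := by
  have hz0 : z ≠ 0 := by intro h; rw [h] at hz; simp at hz
  have hc : (starRingEnd ℂ) z = z⁻¹ := by
    rw [Complex.inv_def, Complex.normSq_eq_norm_sq, hz]; simp
  rw [← Complex.conj_eq_iff_im, map_mul, map_pow, map_inv₀, hc, inv_inv, conj_q, hc]
  have := q_inv M s z hz0
  have h1 : (z⁻¹)^M * z^(2*M) = z^M := by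
    rw [two_mul, pow_add, ← mul_assoc, ← mul_pow, inv_mul_cancel₀ hz0, one_pow, one_mul]
  rw [← this, ← mul_assoc, h1]

lemma exists_angles (M : ℕ) (hM : 1 ≤ M) (s : ℝ) (hs : 0 ≤ s) (hs1 : s * (2*M) ≤ 1) :
    ∀ k : ℕ, ∃ φ : ℝ, (k : ℝ) * Real.pi / M < φ ∧ φ < ((k:ℝ) + 1) * Real.pi / M ∧ q M s (Complex.exp (φ * Complex.I)) = 0 := by
  intro k
  have hMr : (0:ℝ) < M := by exact_mod_cast hM
  let g : ℝ → ℝ := fun φ => (-1)^k * (((Complex.exp (φ * Complex.I))⁻¹)^M * q M s (Complex.exp (φ * Complex.I))).re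
  have hg : Continuous g := by
    have h0 : ∀ φ : ℝ, Complex.exp (φ * Complex.I) ≠ 0 := fun φ => Complex.exp_ne_zero _
    have h1 : Continuous (fun φ : ℝ => (Complex.exp (φ * Complex.I))⁻¹) := by
      apply Continuous.inv₀ (by fun_prop) h0
    have h2 : Continuous (fun φ : ℝ => q M s (Complex.exp (φ * Complex.I))) := by
      unfold q
      apply Continuous.add (by fun_prop)
      apply Continuous.mul continuous_const
      apply continuous_finsetSum
      intro i _
      fun_prop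
    exact continuous_const.mul (Complex.continuous_re.comp ((h1.pow M).mul h2))
  -- value at the nodes
  have hnode : ∀ j : ℕ, 1 ≤ (-1)^j * (((Complex.exp ((((j:ℝ) * Real.pi / M : ℝ) : ℂ) * Complex.I))⁻¹)^M * q M s (Complex.exp ((((j:ℝ) * Real.pi / M : ℝ) : ℂ) * Complex.I))).re := by
    intro j
    set z := Complex.exp ((((j:ℝ) * Real.pi / M : ℝ) : ℂ) * Complex.I) with hz
    have hzn : ‖z‖ = 1 := Complex.norm_exp_ofReal_mul_I _
    have hzM : z^M = (-1)^j := by
      rw [hz, ← Complex.exp_nat_mul]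
      have : (M:ℂ) * ((((j:ℝ) * Real.pi / M : ℝ) : ℂ) * Complex.I) = (j:ℂ) * (Real.pi * Complex.I) := by
        have : (M:ℂ) ≠ 0 := by exact_mod_cast hMr.ne'
        push_cast; field_simp
      rw [this, Complex.exp_nat_mul, Complex.exp_pi_mul_I]
    have hz2M : z^(2*M) = 1 := by
      rw [two_mul, pow_add, hzM, ← pow_add, ← two_mul, pow_mul]; simp
    have hzMi : (z⁻¹)^M = (-1)^j := by
      rw [inv_pow, hzM, ← inv_pow]; norm_num
    rw [hzMi]
    unfold q
    rw [hz2M]
    set S := ∑ i ∈ Finset.Ico 1 (2*M), z^i with hS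
    have hSn : ‖S‖ ≤ 2*M - 1 := by
      rw [hS]
      refine (norm_sum_le _ _).trans ?_
      have : ∀ i ∈ Finset.Ico 1 (2*M), ‖z^i‖ = 1 := by intro i _; rw [norm_pow, hzn, one_pow]
      rw [Finset.sum_congr rfl this]
      simp only [Finset.sum_const, Nat.card_Ico, nsmul_eq_mul, mul_one]
      rw [Nat.cast_sub (by omega)]; push_cast; linarith
    have hre : -(2*(M:ℝ) - 1) ≤ S.re := by
      have := (abs_le.1 ((Complex.abs_re_le_norm S).trans hSn)).1
      exact this
    have e1 : (((-1:ℂ)^j * (1 + 1 + (s:ℂ) * S))).re = (-1)^j * (2 + s * S.re) := by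
      have : ((-1:ℂ)^j) = (((-1:ℝ)^j : ℝ) : ℂ) := by push_cast; rfl
      rw [this, Complex.re_ofReal_mul]
      simp [Complex.add_re]
      ring
    rw [e1, ← mul_assoc, ← pow_add, ← two_mul, pow_mul]
    simp only [even_two, Even.neg_pow, one_pow, one_mul]
    nlinarith [mul_le_mul_of_nonneg_left hre hs]
  have ha : 0 < g ((k:ℝ) * Real.pi / M) := by
    have := hnode k
    show 0 < (-1)^k * _
    linarith
  have hb : g (((k:ℝ) + 1) * Real.pi / M) < 0 := by
    have := hnode (k+1)
    show (-1)^k * _ < 0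
    rw [pow_succ] at this
    push_cast at this ⊢
    linarith
  have hab : (k:ℝ) * Real.pi / M ≤ ((k:ℝ) + 1) * Real.pi / M := by
    have := Real.pi_pos
    gcongr
    linarith
  obtain ⟨φ, hφ, hφ0⟩ := intermediate_value_Ioo' hab hg.continuousOn ⟨hb, ha⟩
  refine ⟨φ, hφ.1, hφ.2, ?_⟩
  have h1 : (((Complex.exp (φ * Complex.I))⁻¹)^M * q M s (Complex.exp (φ * Complex.I))).re = 0 := by
    have h2 : (-1:ℝ)^k ≠ 0 := pow_ne_zero _ (by norm_num)
    exact (mul_eq_zero.1 hφ0).resolve_left h2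
  have h2 := rot_real M s (Complex.exp (φ * Complex.I)) (Complex.norm_exp_ofReal_mul_I _)
  have h3 : ((Complex.exp (φ * Complex.I))⁻¹)^M * q M s (Complex.exp (φ * Complex.I)) = 0 := Complex.ext h1 h2
  exact (mul_eq_zero.1 h3).resolve_left (pow_ne_zero _ (inv_ne_zero (Complex.exp_ne_zero _)))

/-- There is a point of the torus where all middle coefficients are equal to `1/(2M)`. -/
lemma exists_point (M : ℕ) (hM : 1 ≤ M) : ∃ t : UnitAddTorus (Fin M), Rpoly M t = Q M (1/(2*M)) := by
  have hMr : (0:ℝ) < M := by exact_mod_cast hM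
  have hπ := Real.pi_pos
  obtain ⟨φ, hφ⟩ : ∃ φ : ℕ → ℝ, ∀ k : ℕ, (k : ℝ) * Real.pi / M < φ k ∧ φ k < ((k:ℝ) + 1) * Real.pi / M ∧ q M (1/(2*M)) (Complex.exp (φ k * Complex.I)) = 0 := by
    choose φ hφ using exists_angles M hM (1/(2*M)) (by positivity) (by field_simp; exact le_rfl)
    exact ⟨φ, hφ⟩
  refine ⟨fun i => ((φ i / (2 * Real.pi) : ℝ) : UnitAddCircle), ?_⟩
  set t : UnitAddTorus (Fin M) := fun i => ((φ i / (2 * Real.pi) : ℝ) : UnitAddCircle) with ht
  have hfour : ∀ i : Fin M, (fourier 1 (t i) : ℂ) = Complex.exp (φ i * Complex.I) := by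
    intro i
    rw [ht]
    simp only [fourier_coe_apply]
    congr 1
    have : (Real.pi : ℂ) ≠ 0 := by exact_mod_cast hπ.ne'
    push_cast
    field_simp
  have hφpos : ∀ i : Fin M, 0 < φ i := fun i => lt_of_le_of_lt (by positivity) (hφ i).1
  have hφlt : ∀ i : Fin M, φ i < Real.pi := by
    intro i
    refine (hφ i).2.1.trans_le ?_
    rw [div_le_iff₀ hMr]
    have : ((i:ℕ):ℝ) + 1 ≤ M := by exact_mod_cast i.2
    nlinarith
  have hφinj : ∀ i j : Fin M, φ i = φ j → i = j := by
    have key : ∀ i j : Fin M, i < j → φ i < φ j := by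
      intro i j hij
      refine (hφ i).2.1.trans_le (le_trans ?_ (hφ j).1.le)
      have : ((i:ℕ):ℝ) + 1 ≤ (j:ℕ) := by exact_mod_cast hij
      gcongr
    intro i j h
    rcases lt_trichotomy i j with h1 | h1 | h1
    · exact absurd h (key i j h1).ne
    · exact h1
    · exact absurd h (key j i h1).ne'
  let w : Fin M → ℂ := fun i => Complex.exp (φ i * Complex.I)
  have hwre : ∀ i, (w i).re = Real.cos (φ i) := fun i => Complex.exp_ofReal_mul_I_re _
  have hwim : ∀ i, (w i).im = Real.sin (φ i) := fun i => Complex.exp_ofReal_mul_I_im _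
  have hwimpos : ∀ i, 0 < (w i).im := fun i => by
    rw [hwim]; exact Real.sin_pos_of_pos_of_lt_pi (hφpos i) (hφlt i)
  have hwinj : Function.Injective w := by
    intro i j h
    apply hφinj
    have h1 : Real.cos (φ i) = Real.cos (φ j) := by rw [← hwre, ← hwre, h]
    exact Real.injOn_cos ⟨(hφpos i).le, (hφlt i).le⟩ ⟨(hφpos j).le, (hφlt j).le⟩ h1
  have hcinj : Function.Injective (fun i => (starRingEnd ℂ) (w i)) := by
    intro i j h
    exact hwinj ((starRingEnd ℂ).injective h)
  classical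
  let S : Finset ℂ := Finset.univ.image w ∪ Finset.univ.image (fun i => (starRingEnd ℂ) (w i))
  have hScard : S.card = 2*M := by
    rw [Finset.card_union_of_disjoint, Finset.card_image_of_injective _ hwinj, Finset.card_image_of_injective _ hcinj]
    · simp; ring
    · rw [Finset.disjoint_left]
      intro x hx hx'
      simp only [Finset.mem_image, Finset.mem_univ, true_and] at hx hx'
      obtain ⟨i, rfl⟩ := hx
      obtain ⟨j, hj⟩ := hx'
      have h1 := hwimpos i
      have h2 := hwimpos j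
      rw [← hj, Complex.conj_im] at h1
      linarith
  have hmap : (Rpoly M t).map Complex.ofRealHom = (Q M (1/(2*M))).map Complex.ofRealHom := by
    apply Polynomial.eq_of_degree_sub_lt_of_eval_finset_eq S
    · rw [hScard]
      have h1 : ((Rpoly M t).map Complex.ofRealHom).degree = ((2*M : ℕ) : WithBot ℕ) := by
        rw [Polynomial.degree_map, degree_eq_natDegree (Rpoly_monic M t).ne_zero, Rpoly_natDegree]
      have hQ := Q_monic M hM (1/(2*M))
      have h2 : ((Q M (1/(2*M))).map Complex.ofRealHom).degree = ((2*M : ℕ) : WithBot ℕ) := by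
        rw [Polynomial.degree_map, degree_eq_natDegree hQ.1.ne_zero, hQ.2]
      rw [← h1]
      apply degree_sub_lt_left
      · rw [h1, h2]
      · exact ((Rpoly_monic M t).map _).ne_zero
      · rw [((Rpoly_monic M t).map _).leadingCoeff, (hQ.1.map _).leadingCoeff]
    · intro x hx
      have hquad : ∀ i : Fin M, ∀ y : ℂ, (y = w i ∨ y = (starRingEnd ℂ) (w i)) → ((Rpoly M t).map Complex.ofRealHom).eval y = 0 := by
        intro i y hy
        unfold Rpoly
        rw [Polynomial.map_prod, eval_prod]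
        apply Finset.prod_eq_zero (Finset.mem_univ i)
        simp only [Polynomial.map_add, Polynomial.map_sub, Polynomial.map_pow, Polynomial.map_mul, map_X, map_C, Polynomial.map_one,
          eval_add, eval_sub, eval_pow, eval_mul, eval_X, eval_C, eval_one]
        have hre : (fourier 1 (t i) : ℂ).re = (w i).re := by rw [hfour i]
        rw [hre]
        have hn : ‖w i‖ = 1 := Complex.norm_exp_ofReal_mul_I _
        have h1 : w i * (starRingEnd ℂ) (w i) = 1 := by
          rw [Complex.mul_conj, Complex.normSq_eq_norm_sq, hn]; norm_num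
        have h2 : w i + (starRingEnd ℂ) (w i) = ((2 * (w i).re : ℝ) : ℂ) := Complex.add_conj (w i)
        have h3 : Complex.ofRealHom (2 * (w i).re) = ((2 * (w i).re : ℝ) : ℂ) := rfl
        rw [h3, ← h2]
        rcases hy with rfl | rfl
        · linear_combination (-1 : ℂ) * h1
        · linear_combination (-1 : ℂ) * h1
      have hqz : ∀ i : Fin M, ∀ y : ℂ, (y = w i ∨ y = (starRingEnd ℂ) (w i)) → ((Q M (1/(2*M))).map Complex.ofRealHom).eval y = 0 := by
        intro i y hy
        rw [eval_Q]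
        rcases hy with rfl | rfl
        · exact (hφ i).2.2
        · rw [← conj_q]
          show (starRingEnd ℂ) (q M (1/(2*M)) (w i)) = 0
          rw [show q M (1/(2*M)) (w i) = 0 from (hφ i).2.2, map_zero]
      simp only [S, Finset.mem_union, Finset.mem_image, Finset.mem_univ, true_and] at hx
      rcases hx with ⟨i, hi⟩ | ⟨i, hi⟩
      · rw [hquad i x (Or.inl hi.symm), hqz i x (Or.inl hi.symm)]
      · rw [hquad i x (Or.inr hi.symm), hqz i x (Or.inr hi.symm)]
  exact Polynomial.map_injective _ Complex.ofRealHom.injective hmap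

lemma region_nonempty (M : ℕ) (hM : 1 ≤ M) : (region M (1/(4*M))).Nonempty := by
  obtain ⟨t, ht⟩ := exists_point M hM
  have hMr : (1:ℝ) ≤ M := by exact_mod_cast hM
  refine ⟨t, fun i h1 h2 => ?_⟩
  rw [ht, Q_coeff M _ i h1 h2]
  constructor
  · rw [div_lt_div_iff₀ (by positivity) (by positivity)]; nlinarith
  · rw [div_lt_one (by positivity)]; linarith

end Pool.Agent.Helper3
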