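import Mathlib

/-! Weyl equidistribution on a finite dimensional torus, and positive lower density of return times. -/

open MeasureTheory Filter Topology UnitAddTorus

namespace Pool.Agent.Helper3

variable {I : Type} [Fintype I]

/-- Haar probability measure on the torus. -/
noncomputable def haarT (I : Type) [Fintype I] : Measure (UnitAddTorus I) :=
  Measure.pi (fun _ : I => (AddCircle.haarAddCircle : Measure UnitAddCircle))

noncomputable instance : IsProbabilityMeasure (haarT I) := by
  unfold haarT; infer_instance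

noncomputable instance : (haarT I).IsOpenPosMeasure := by
  unfold haarT; infer_instance

lemma integral_mFourier (n : I → ℤ) (hn : n ≠ 0) : ∫ t, mFourier n t ∂(haarT I) = 0 := by
  unfold haarT
  simp only [mFourier, ContinuousMap.coe_mk]
  rw [MeasureTheory.integral_fintype_prod_eq_prod (𝕜 := ℂ) (fun i (x : UnitAddCircle) => fourier (n i) x)]
  obtain ⟨i, hi⟩ := Function.ne_iff.mp hn
  apply Finset.prod_eq_zero (Finset.mem_univ i)
  have h := orthonormal_iff_ite.mp (orthonormal_fourier (T := (1:ℝ))) 0 (n i)
  rw [if_neg (by simpa using fun h => hi h.symm)] at h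
  rw [ContinuousMap.inner_toLp] at h
  simpa using h

lemma mFourier_nsmul (n : I → ℤ) (x : UnitAddTorus I) (k : ℕ) :
    mFourier n (k • x) = (mFourier n x)^k := by
  induction k with
  | zero => simp [mFourier]
  | succ k ih =>
    rw [pow_succ, ← ih, succ_nsmul]
    simp only [mFourier, ContinuousMap.coe_mk, Pi.add_apply, ← Finset.prod_mul_distrib]
    apply Finset.prod_congr rfl
    intro i _
    simp only [fourier_apply, smul_add, AddCircle.toCircle_add, Circle.coe_mul]

/-- The average of `f` along the orbit `k • x`, `k < N`. -/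
noncomputable def avg (x : UnitAddTorus I) (N : ℕ) (f : C(UnitAddTorus I, ℂ)) : ℂ :=
  (N : ℂ)⁻¹ * ∑ k ∈ Finset.range N, f (k • x)

lemma avg_norm_le (x : UnitAddTorus I) (N : ℕ) (f : C(UnitAddTorus I, ℂ)) :
    ‖avg x N f‖ ≤ ‖f‖ := by
  unfold avg
  rcases Nat.eq_zero_or_pos N with h | h
  · subst h; simp
  · rw [norm_mul, norm_inv, Complex.norm_natCast]
    have h1 : ‖∑ k ∈ Finset.range N, f (k • x)‖ ≤ N * ‖f‖ := by
      refine (norm_sum_le _ _).trans ?_
      refine (Finset.sum_le_sum (fun k _ => f.norm_coe_le_norm (k • x))).trans ?_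
      simp
    have hN : (0:ℝ) < N := by exact_mod_cast h
    calc (N:ℝ)⁻¹ * ‖∑ k ∈ Finset.range N, f (k • x)‖ ≤ (N:ℝ)⁻¹ * (N * ‖f‖) := by gcongr
      _ = ‖f‖ := by field_simp

lemma avg_mFourier (x : UnitAddTorus I) (n : I → ℤ) (hx : mFourier n x ≠ 1) :
    Tendsto (fun N : ℕ => avg x N (mFourier n)) atTop (𝓝 0) := by
  have h1 : ∀ N : ℕ, ‖avg x N (mFourier n)‖ ≤ (N:ℝ)⁻¹ * (2 / ‖mFourier n x - 1‖) := by
    intro N
    unfold avg
    rw [norm_mul, norm_inv, Complex.norm_natCast]
    gcongr
    have h2 : ∑ k ∈ Finset.range N, mFourier n (k • x) = ((mFourier n x)^N - 1) / (mFourier n x - 1) := by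
      rw [← geom_sum_eq hx]
      exact Finset.sum_congr rfl (fun k _ => mFourier_nsmul n x k)
    rw [h2, norm_div]
    gcongr
    refine (norm_sub_le _ _).trans ?_
    rw [norm_pow]
    have : ‖mFourier n x‖ ≤ 1 := by
      refine ((mFourier n).norm_coe_le_norm x).trans ?_
      rw [mFourier_norm]
    have h3 : ‖mFourier n x‖^N ≤ 1 := pow_le_one₀ (norm_nonneg _) this
    rw [norm_one]; linarith
  have h2 : Tendsto (fun N : ℕ => (N:ℝ)⁻¹ * (2 / ‖mFourier n x - 1‖)) atTop (𝓝 0) := by
    have := (tendsto_inv_atTop_zero.comp (tendsto_natCast_atTop_atTop (R := ℝ))).mul_const (2 / ‖mFourier n x - 1‖)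
    simpa using this
  exact squeeze_zero_norm h1 h2

/-- Weyl's equidistribution theorem on the torus. -/
theorem weyl (x : UnitAddTorus I) (hx : ∀ n : I → ℤ, n ≠ 0 → mFourier n x ≠ 1) (f : C(UnitAddTorus I, ℂ)) :
    Tendsto (fun N : ℕ => avg x N f) atTop (𝓝 (∫ t, f t ∂(haarT I))) := by
  have hint : ∀ g : C(UnitAddTorus I, ℂ), Integrable (fun t => g t) (haarT I) := by
    intro g
    refine Integrable.mono' (integrable_const (‖g‖)) g.continuous.aestronglyMeasurable ?_
    exact Eventually.of_forall (fun t => g.norm_coe_le_norm t)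
  have hadd : ∀ (N : ℕ) (g h : C(UnitAddTorus I, ℂ)), avg x N (g + h) = avg x N g + avg x N h := by
    intro N g h; unfold avg; simp only [ContinuousMap.add_apply, Finset.sum_add_distrib]; ring
  have hsmul : ∀ (N : ℕ) (c : ℂ) (g : C(UnitAddTorus I, ℂ)), avg x N (c • g) = c * avg x N g := by
    intro N c g; unfold avg; simp only [ContinuousMap.smul_apply, smul_eq_mul, ← Finset.mul_sum]; ring
  -- the set where convergence holds is a closed submodule containing the characters
  let S : Submodule ℂ C(UnitAddTorus I, ℂ) :=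
    { carrier := {g | Tendsto (fun N : ℕ => avg x N g) atTop (𝓝 (∫ t, g t ∂(haarT I)))}
      add_mem' := by
        intro g h hg hh
        have := hg.add hh
        show Tendsto _ _ _
        rw [show (∫ t, (g + h) t ∂(haarT I)) = ∫ t, g t ∂(haarT I) + ∫ t, h t ∂(haarT I) from
          integral_add (hint g) (hint h)]
        exact this.congr (fun N => (hadd N g h).symm)
      zero_mem' := by
        show Tendsto _ _ _
        simp [avg]
      smul_mem' := by
        intro c g hg
        have := hg.const_mul c
        show Tendsto _ _ _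
        rw [show (∫ t, (c • g) t ∂(haarT I)) = c * ∫ t, g t ∂(haarT I) from by
          simp only [ContinuousMap.smul_apply, smul_eq_mul]
          exact integral_const_mul c _]
        exact this.congr (fun N => (hsmul N c g).symm) }
  have hSclosed : IsClosed (S : Set C(UnitAddTorus I, ℂ)) := by
    rw [← closure_subset_iff_isClosed]
    intro g hg
    show Tendsto _ _ _
    rw [Metric.tendsto_atTop]
    intro ε hε
    rw [Metric.mem_closure_iff] at hg
    obtain ⟨h, hh, hgh⟩ := hg (ε/3) (by positivity)
    have hh' : Tendsto (fun N : ℕ => avg x N h) atTop (𝓝 (∫ t, h t ∂(haarT I))) := hh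
    rw [Metric.tendsto_atTop] at hh'
    obtain ⟨N0, hN0⟩ := hh' (ε/3) (by positivity)
    refine ⟨N0, fun N hN => ?_⟩
    have h1 : dist (avg x N g) (avg x N h) < ε/3 := by
      rw [dist_eq_norm]
      have : avg x N g - avg x N h = avg x N (g - h) := by
        unfold avg; simp only [ContinuousMap.sub_apply, Finset.sum_sub_distrib]; ring
      rw [this]
      refine (avg_norm_le x N _).trans_lt ?_
      rwa [← dist_eq_norm]
    have h2 : dist (∫ t, g t ∂(haarT I)) (∫ t, h t ∂(haarT I)) ≤ ε/3 := by
      rw [dist_eq_norm, ← integral_sub (hint g) (hint h)]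
      have : ‖∫ t, (g t - h t) ∂(haarT I)‖ ≤ ‖g - h‖ * (haarT I).real Set.univ := by
        apply norm_integral_le_of_norm_le_const
        exact Eventually.of_forall (fun t => (g - h).norm_coe_le_norm t)
      rw [probReal_univ, mul_one] at this
      refine this.trans ?_
      rw [← dist_eq_norm]; exact hgh.le
    have h3 := hN0 N hN
    calc dist (avg x N g) (∫ t, g t ∂(haarT I)) ≤ dist (avg x N g) (avg x N h) + dist (avg x N h) (∫ t, h t ∂(haarT I)) + dist (∫ t, h t ∂(haarT I)) (∫ t, g t ∂(haarT I)) := dist_triangle4 _ _ _ _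
      _ < ε/3 + ε/3 + ε/3 := by
        rw [dist_comm (∫ t, h t ∂(haarT I))]
        linarith
      _ = ε := by ring
  have hSchar : Submodule.span ℂ (Set.range (mFourier (d := I))) ≤ S := by
    rw [Submodule.span_le]
    rintro _ ⟨n, rfl⟩
    show Tendsto _ _ _
    by_cases hn : n = 0
    · subst hn
      rw [mFourier_zero]
      simp only [ContinuousMap.one_apply, integral_const, probReal_univ, one_smul]
      apply tendsto_const_nhds.congr'
      filter_upwards [eventually_gt_atTop 0] with N hN
      unfold avg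
      simp only [ContinuousMap.one_apply, Finset.sum_const, Finset.card_range, nsmul_eq_mul, mul_one]
      have : (N : ℂ) ≠ 0 := by exact_mod_cast hN.ne'
      field_simp
    · rw [integral_mFourier n hn]
      exact avg_mFourier x n (hx n hn)
  have htop : S = ⊤ := by
    rw [eq_top_iff, ← span_mFourier_closure_eq_top (d := I)]
    exact Submodule.topologicalClosure_minimal _ hSchar hSclosed
  have : f ∈ S := by rw [htop]; trivial
  exact this

open Classical in
/-- The return times to a nonempty open set have positive lower density, uniformly in the rotation. -/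
theorem return_density (U : Set (UnitAddTorus I)) (hU : IsOpen U) (hne : U.Nonempty) :
    ∃ c : ℝ, 0 < c ∧ ∀ x : UnitAddTorus I, (∀ n : I → ℤ, n ≠ 0 → mFourier n x ≠ 1) →
      ∀ᶠ N : ℕ in atTop, c * N ≤ (((Finset.range N).filter (fun k : ℕ => k • x ∈ U)).card : ℝ) := by
  obtain ⟨u, hu⟩ := hne
  -- Urysohn function
  obtain ⟨f, hf0, hf1, hf⟩ := exists_continuous_zero_one_of_isClosed (isClosed_compl_iff.2 hU)
    (isClosed_singleton (x := u)) (by
      rw [Set.disjoint_singleton_right]; simpa using hu)
  -- complex valued version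
  let F : C(UnitAddTorus I, ℂ) := ⟨fun t => (f t : ℂ), by fun_prop⟩
  have hint : Integrable (fun t => f t) (haarT I) := by
    refine Integrable.mono' (integrable_const (1:ℝ)) f.continuous.aestronglyMeasurable ?_
    refine Eventually.of_forall (fun t => ?_)
    rw [Real.norm_eq_abs, abs_of_nonneg (hf t).1]; exact (hf t).2
  have hpos : 0 < ∫ t, f t ∂(haarT I) := by
    rw [integral_pos_iff_support_of_nonneg (fun t => (hf t).1) hint]
    apply IsOpen.measure_pos
    · exact f.continuous.isOpen_support
    · refine ⟨u, ?_⟩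
      rw [Function.mem_support]
      have := hf1 (Set.mem_singleton u)
      simp at this
      rw [this]; norm_num
  refine ⟨(∫ t, f t ∂(haarT I)) / 2, by positivity, fun x hx => ?_⟩
  have hw := weyl x hx F
  have hFint : ∫ t, F t ∂(haarT I) = ((∫ t, f t ∂(haarT I) : ℝ) : ℂ) := by
    show ∫ t, ((f t : ℝ) : ℂ) ∂(haarT I) = _
    exact integral_ofReal
  rw [hFint] at hw
  have hw' := (Complex.continuous_re.tendsto _).comp hw
  simp only [Complex.ofReal_re] at hw'
  have hev := hw'.eventually (lt_mem_nhds (show (∫ t, f t ∂(haarT I)) / 2 < ∫ t, f t ∂(haarT I) by linarith))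
  filter_upwards [hev, eventually_gt_atTop 0] with N hN hN0
  simp only [Function.comp_apply] at hN
  have hNr : (0:ℝ) < N := by exact_mod_cast hN0
  have e1 : (avg x N F).re = (N:ℝ)⁻¹ * ∑ k ∈ Finset.range N, f (k • x) := by
    unfold avg
    have : (∑ k ∈ Finset.range N, F (k • x)) = ((∑ k ∈ Finset.range N, f (k • x) : ℝ) : ℂ) := by
      push_cast; rfl
    rw [this, ← Complex.ofReal_natCast, ← Complex.ofReal_inv, ← Complex.ofReal_mul, Complex.ofReal_re]
  rw [e1] at hN
  have e2 : ∑ k ∈ Finset.range N, f (k • x) ≤ (((Finset.range N).filter (fun k : ℕ => k • x ∈ U)).card : ℝ) := by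
    rw [Finset.card_filter]
    push_cast
    apply Finset.sum_le_sum
    intro k _
    by_cases hk : k • x ∈ U
    · rw [if_pos hk]; exact (hf _).2
    · rw [if_neg hk]
      have := hf0 (show k • x ∈ Uᶜ from hk)
      simp at this
      rw [this]
  have e3 : (∫ t, f t ∂(haarT I)) / 2 * N < ∑ k ∈ Finset.range N, f (k • x) := by
    have := mul_lt_mul_of_pos_right hN hNr
    calc (∫ t, f t ∂(haarT I)) / 2 * N < (N:ℝ)⁻¹ * (∑ k ∈ Finset.range N, f (k • x)) * N := this
      _ = _ := by field_simp
  linarith

end Pool.Agent.Helper3
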