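import Mathlib
import Pool.Agent.Helper3.SalemRoots
import Pool.Agent.Helper3.Region
import Pool.Agent.Helper3.Weyl
import Pool.Agent.Helper3.Orbit

/-! Factorisation of the minimal polynomials of the powers of a Salem number. -/

open Polynomial UnitAddTorus

namespace Pool.Agent.Helper3

/-- The finite set of conjugates. -/
noncomputable def rts (β : ℝ) : Finset ℂ := ((minpoly ℤ β).map (algebraMap ℤ ℂ)).roots.toFinset

lemma mem_rts {β : ℝ} (hβ : IsIntegral ℤ β) (z : ℂ) : z ∈ rts β ↔ aeval z (minpoly ℤ β) = 0 := by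
  unfold rts
  rw [Multiset.mem_toFinset, mem_roots ((minpoly.monic hβ).map _).ne_zero, IsRoot.def, eval_map_algebraMap]

lemma minpoly_C_sep {β : ℝ} (hβ : IsIntegral ℤ β) : ((minpoly ℤ β).map (algebraMap ℤ ℂ)).roots.Nodup := by
  have h1 : (minpoly ℤ β).map (algebraMap ℤ ℂ) = (minpoly ℚ β).map (algebraMap ℚ ℂ) := by
    rw [← minpoly_map_Q hβ, Polynomial.map_map]
    congr 1
  rw [h1]
  apply nodup_roots
  apply Separable.map
  exact (minpoly.irreducible hβ.tower_top).separable

lemma minpoly_C_prod {β : ℝ} (hβ : IsIntegral ℤ β) :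
    (minpoly ℤ β).map (algebraMap ℤ ℂ) = ∏ z ∈ rts β, (X - C z) := by
  have hsplit := IsAlgClosed.splits ((minpoly ℤ β).map (algebraMap ℤ ℂ))
  have hmon := (minpoly.monic hβ).map (algebraMap ℤ ℂ)
  have h1 := hsplit.eq_prod_roots_of_monic hmon
  conv_lhs => rw [h1]
  unfold rts
  rw [Finset.prod_eq_multiset_prod, Multiset.toFinset_val, Multiset.dedup_eq_self.2 (minpoly_C_sep hβ)]

section Salem

variable {β : ℝ} (hβ : IsSalem β)

include hβ

lemma rts_pow {k : ℕ} [DecidableEq ℂ] : rts (β^k) = (rts β).image (fun z => z^k) := by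
  ext y
  rw [mem_rts (isIntegral_pow hβ k), root_pow_iff hβ, Finset.mem_image]
  constructor
  · rintro ⟨z, hz, rfl⟩; exact ⟨z, (mem_rts hβ.2.1 z).2 hz, rfl⟩
  · rintro ⟨z, hz, rfl⟩; exact ⟨z, (mem_rts hβ.2.1 z).1 hz, rfl⟩

lemma minpoly_pow_prod {k : ℕ} (hk : 1 ≤ k) :
    (minpoly ℤ (β^k)).map (algebraMap ℤ ℂ) = ∏ z ∈ rts β, (X - C (z^k)) := by
  classical
  rw [minpoly_C_prod (isIntegral_pow hβ k), rts_pow hβ, Finset.prod_image]
  intro z hz w hw h
  exact pow_inj hβ hk ((mem_rts hβ.2.1 z).1 hz) ((mem_rts hβ.2.1 w).1 hw) h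

lemma natDegree_pow {k : ℕ} (hk : 1 ≤ k) : (minpoly ℤ (β^k)).natDegree = (minpoly ℤ β).natDegree := by
  have h1 : ((minpoly ℤ (β^k)).map (algebraMap ℤ ℂ)).natDegree = (rts β).card := by
    rw [minpoly_pow_prod hβ hk, natDegree_prod_of_monic _ _ (fun z _ => monic_X_sub_C _)]
    simp only [natDegree_X_sub_C, Finset.sum_const, smul_eq_mul, mul_one]
  have h2 : ((minpoly ℤ β).map (algebraMap ℤ ℂ)).natDegree = (rts β).card := by
    rw [minpoly_C_prod hβ.2.1, natDegree_prod_of_monic _ _ (fun z _ => monic_X_sub_C _)]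
    simp
  rw [(minpoly.monic (isIntegral_pow hβ k)).natDegree_map] at h1
  rw [(minpoly.monic hβ.2.1).natDegree_map] at h2
  rw [h1, h2]

/-- The conjugates in the upper half plane. -/
noncomputable def upper (β : ℝ) : Finset ℂ := (rts β).filter (fun z => 0 < z.im)

omit hβ in
lemma conj_inj : Function.Injective (fun z : ℂ => (starRingEnd ℂ) z) := (starRingEnd ℂ).injective

lemma upper_spec {z : ℂ} (hz : z ∈ upper β) : aeval z (minpoly ℤ β) = 0 ∧ 0 < z.im ∧ ‖z‖ = 1 ∧ z⁻¹ = (starRingEnd ℂ) z := by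
  unfold upper at hz
  rw [Finset.mem_filter, mem_rts hβ.2.1] at hz
  have h1 : z ≠ β := by
    rintro rfl; simpa using hz.2
  have h2 : z ≠ (β : ℂ)⁻¹ := by
    rintro rfl
    have := hz.2
    rw [← Complex.ofReal_inv, Complex.ofReal_im] at this
    exact lt_irrefl _ this
  have h3 := norm_root hβ hz.1 h1 h2
  refine ⟨hz.1, hz.2, h3, ?_⟩
  rw [Complex.inv_def, Complex.normSq_eq_norm_sq, h3]; simp

lemma rts_decomp [DecidableEq ℂ] :
    rts β = {(β : ℂ), (β : ℂ)⁻¹} ∪ (upper β ∪ (upper β).image (fun z => (starRingEnd ℂ) z)) := by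
  ext z
  simp only [Finset.mem_union, Finset.mem_insert, Finset.mem_singleton, Finset.mem_image]
  constructor
  · intro hz
    by_cases h1 : z = β
    · exact Or.inl (Or.inl h1)
    by_cases h2 : z = (β : ℂ)⁻¹
    · exact Or.inl (Or.inr h2)
    right
    have hz' := (mem_rts hβ.2.1 z).1 hz
    have hn := norm_root hβ hz' h1 h2
    have him := im_ne_zero hβ hz' hn
    rcases lt_or_gt_of_ne him with h | h
    · right
      refine ⟨(starRingEnd ℂ) z, ?_, by simp⟩
      unfold upper
      rw [Finset.mem_filter, mem_rts hβ.2.1]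
      exact ⟨conj_root hz', by rw [Complex.conj_im]; linarith⟩
    · left
      unfold upper
      rw [Finset.mem_filter]
      exact ⟨hz, h⟩
  · rintro ((rfl | rfl) | (h | ⟨w, hw, rfl⟩))
    · exact (mem_rts hβ.2.1 _).2 (self_root β)
    · exact (mem_rts hβ.2.1 _).2 (inv_root hβ (self_root β))
    · unfold upper at h; exact (Finset.mem_filter.1 h).1
    · exact (mem_rts hβ.2.1 _).2 (conj_root (upper_spec hβ hw).1)

lemma prod_rts (f : ℂ → ℂ[X]) :
    ∏ z ∈ rts β, f z = f β * f (β : ℂ)⁻¹ * ∏ z ∈ upper β, (f z * f ((starRingEnd ℂ) z)) := by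
  classical
  rw [rts_decomp hβ, Finset.prod_union, Finset.prod_union, Finset.prod_pair, Finset.prod_image, ← Finset.prod_mul_distrib]
  · intro z _ w _ h; exact conj_inj h
  · intro h
    have h1 : (β : ℝ) = β⁻¹ := by exact_mod_cast h
    have h2 : β⁻¹ < 1 := inv_lt_one_of_one_lt₀ hβ.1
    linarith [hβ.1]
  · rw [Finset.disjoint_left]
    intro z hz hz'
    rw [Finset.mem_image] at hz'
    obtain ⟨w, hw, rfl⟩ := hz'
    have h1 := (upper_spec hβ hz).2.1
    have h2 := (upper_spec hβ hw).2.1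
    rw [Complex.conj_im] at h1; linarith
  · rw [Finset.disjoint_left]
    intro z hz hz'
    have him : z.im = 0 := by
      rw [Finset.mem_insert, Finset.mem_singleton] at hz
      rcases hz with rfl | rfl
      · simp
      · rw [← Complex.ofReal_inv, Complex.ofReal_im]
    rw [Finset.mem_union, Finset.mem_image] at hz'
    rcases hz' with h | ⟨w, hw, rfl⟩
    · have := (upper_spec hβ h).2.1; linarith
    · have := (upper_spec hβ hw).2.1
      rw [Complex.conj_im] at him; linarith

lemma card_rts : (rts β).card = 2 * (upper β).card + 2 := by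
  classical
  have h := prod_rts hβ (fun z => X - C z)
  have h1 : (∏ z ∈ rts β, (X - C z)).natDegree = (rts β).card := by
    rw [natDegree_prod_of_monic _ _ (fun z _ => monic_X_sub_C _)]; simp
  have hm : (∏ z ∈ upper β, ((X - C z) * (X - C ((starRingEnd ℂ) z)))).Monic :=
    monic_prod_of_monic _ _ (fun z _ => (monic_X_sub_C _).mul (monic_X_sub_C _))
  have h2 : ((X - C (β : ℂ)) * (X - C (β : ℂ)⁻¹) * ∏ z ∈ upper β, ((X - C z) * (X - C ((starRingEnd ℂ) z)))).natDegree
      = 2 * (upper β).card + 2 := by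
    rw [((monic_X_sub_C _).mul (monic_X_sub_C _)).natDegree_mul hm, (monic_X_sub_C _).natDegree_mul (monic_X_sub_C _),
      natDegree_prod_of_monic _ _ (fun z _ => (monic_X_sub_C _).mul (monic_X_sub_C _))]
    have : ∀ z ∈ upper β, ((X - C z) * (X - C ((starRingEnd ℂ) z)) : ℂ[X]).natDegree = 2 := by
      intro z _
      rw [(monic_X_sub_C _).natDegree_mul (monic_X_sub_C _), natDegree_X_sub_C, natDegree_X_sub_C]
    rw [Finset.sum_congr rfl this]
    simp only [natDegree_X_sub_C, Finset.sum_const, smul_eq_mul]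
    ring
  rw [← h1, h]
  exact h2

lemma natDegree_eq : (minpoly ℤ β).natDegree = 2 * (upper β).card + 2 := by
  have h2 : ((minpoly ℤ β).map (algebraMap ℤ ℂ)).natDegree = (rts β).card := by
    rw [minpoly_C_prod hβ.2.1, natDegree_prod_of_monic _ _ (fun z _ => monic_X_sub_C _)]
    simp
  rw [(minpoly.monic hβ.2.1).natDegree_map] at h2
  rw [h2, card_rts hβ]

lemma upper_card_pos : 1 ≤ (upper β).card := by
  obtain ⟨z, hz, hz1⟩ := hβ.2.2.2
  rw [Nat.succ_le_iff, Finset.card_pos]
  rcases lt_or_gt_of_ne (im_ne_zero hβ hz hz1) with h | h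
  · refine ⟨(starRingEnd ℂ) z, ?_⟩
    unfold upper
    rw [Finset.mem_filter, mem_rts hβ.2.1]
    exact ⟨conj_root hz, by rw [Complex.conj_im]; linarith⟩
  · refine ⟨z, ?_⟩
    unfold upper
    rw [Finset.mem_filter, mem_rts hβ.2.1]
    exact ⟨hz, h⟩

/-- Multiplicative independence of the conjugates in the upper half plane. -/
lemma mult_indep (n : ℂ → ℤ) (h : ∏ z ∈ upper β, z ^ (n z) = 1) : ∀ z ∈ upper β, n z = 0 := by
  classical
  intro z0 hz0
  have hs0 := upper_spec hβ hz0
  let z0K : K := ⟨z0, mem_K_of_root (salem_ne hβ) hs0.1⟩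
  obtain ⟨σ, hσ⟩ := exists_emb hβ.2.1 z0K hs0.1 (β : ℂ) (self_root β)
  -- the product inside K
  let toK : ℂ → K := fun z => if hz : z ∈ K then ⟨z, hz⟩ else 1
  have htoK : ∀ z ∈ upper β, ((toK z : K) : ℂ) = z := by
    intro z hz
    have : z ∈ K := mem_K_of_root (salem_ne hβ) (upper_spec hβ hz).1
    simp only [toK, dif_pos this]
  have hK : ∏ z ∈ upper β, (toK z) ^ (n z) = 1 := by
    apply Subtype.ext
    have : ((∏ z ∈ upper β, (toK z) ^ (n z) : K) : ℂ) = ∏ z ∈ upper β, z ^ (n z) := by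
      rw [show ((∏ z ∈ upper β, (toK z) ^ (n z) : K) : ℂ) = (algebraMap K ℂ) (∏ z ∈ upper β, (toK z) ^ (n z)) from rfl, map_prod]
      apply Finset.prod_congr rfl
      intro z hz
      rw [map_zpow₀]
      congr 1
      exact htoK z hz
    rw [this, h]; rfl
  have hσK : ∏ z ∈ upper β, (σ (toK z)) ^ (n z) = 1 := by
    have := congrArg σ hK
    rw [map_prod, map_one] at this
    rw [← this]
    apply Finset.prod_congr rfl
    intro z _
    rw [map_zpow₀]
  have hnorm : ∏ z ∈ upper β, ‖σ (toK z)‖ ^ (n z) = 1 := by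
    have := congrArg norm hσK
    rw [norm_prod, norm_one] at this
    rw [← this]
    apply Finset.prod_congr rfl
    intro z _
    rw [norm_zpow]
  have hother : ∀ z ∈ upper β, z ≠ z0 → ‖σ (toK z)‖ ^ (n z) = 1 := by
    intro z hz hne
    have hsz := upper_spec hβ hz
    have hroot : aeval (σ (toK z)) (minpoly ℤ β) = 0 := by
      apply aeval_emb hβ.2.1 σ
      rw [htoK z hz]; exact hsz.1
    have h1 : σ (toK z) ≠ β := by
      intro h1
      rw [← hσ] at h1
      have := σ.toRingHom.injective h1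
      apply hne
      have h2 := congrArg (fun x : K => (x : ℂ)) this
      simp only [htoK z hz] at h2
      exact h2
    have h2 : σ (toK z) ≠ (β : ℂ)⁻¹ := by
      intro h2
      rw [← hσ, ← map_inv₀] at h2
      have := σ.toRingHom.injective h2
      have h3 := congrArg (fun x : K => (x : ℂ)) this
      simp only [htoK z hz] at h3
      have h4 : z = z0⁻¹ := h3
      rw [hs0.2.2.2] at h4
      have h5 := hsz.2.1
      rw [h4, Complex.conj_im] at h5
      linarith [hs0.2.1]
    rw [norm_root hβ hroot h1 h2, one_zpow]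
  rw [Finset.prod_eq_single z0 (fun z hz hne => hother z hz hne) (fun hc => absurd hz0 hc)] at hnorm
  have h0 : toK z0 = z0K := Subtype.ext (htoK z0 hz0)
  rw [h0, hσ, norm_beta hβ] at hnorm
  have hb := hβ.1
  exact (zpow_eq_one_iff_right₀ (by linarith) (by linarith)).1 hnorm

end Salem


/-! ### The torus point attached to a Salem number -/

section Torus

/-- The point of `ℝ / ℤ` with `fourier 1` equal to a unit complex number. -/
noncomputable def ang (z : ℂ) : UnitAddCircle := ((z.arg / (2 * Real.pi) : ℝ) : UnitAddCircle)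

lemma fourier_ang (z : ℂ) (hz : ‖z‖ = 1) (n : ℤ) : (fourier n (ang z) : ℂ) = z ^ n := by
  have hz' : z = Complex.exp (z.arg * Complex.I) := by
    have := Complex.norm_mul_exp_arg_mul_I z
    rw [hz] at this
    simpa using this.symm
  unfold ang
  rw [fourier_coe_apply]
  conv_rhs => rw [hz']
  rw [← Complex.exp_int_mul]
  congr 1
  have : (Real.pi : ℂ) ≠ 0 := by exact_mod_cast Real.pi_ne_zero
  push_cast
  field_simp

lemma fourier_nsmul_ang (z : ℂ) (hz : ‖z‖ = 1) (k : ℕ) : (fourier 1 (k • ang z) : ℂ) = z ^ k := by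
  have h1 : (fourier 1 (k • ang z) : ℂ) = (fourier (k:ℤ) (ang z) : ℂ) := by
    simp only [fourier_apply]
    congr 2
    simp
  rw [h1, fourier_ang z hz, zpow_natCast]

variable {β : ℝ} (hβ : IsSalem β)

/-- An enumeration of the conjugates in the upper half plane. -/
noncomputable def enum (β : ℝ) (M : ℕ) (hM : (upper β).card = M) : Fin M ≃ upper β :=
  ((upper β).equivFinOfCardEq hM).symm

noncomputable def pt (β : ℝ) (M : ℕ) (hM : (upper β).card = M) : UnitAddTorus (Fin M) :=
  fun i => ang ((enum β M hM i : upper β) : ℂ)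

include hβ

lemma pt_indep (M : ℕ) (hM : (upper β).card = M) (n : Fin M → ℤ) (hn : n ≠ 0) :
    mFourier n (pt β M hM) ≠ 1 := by
  classical
  intro h
  apply hn
  -- transport to the finset
  let e := enum β M hM
  let n' : ℂ → ℤ := fun z => if hz : z ∈ upper β then n (e.symm ⟨z, hz⟩) else 0
  have h1 : ∏ z ∈ upper β, z ^ (n' z) = 1 := by
    rw [← h, ← Finset.prod_coe_sort]
    simp only [mFourier, ContinuousMap.coe_mk]
    symm
    apply Fintype.prod_equiv e
    intro i
    have hmem := (e i).2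
    have hs := upper_spec hβ hmem
    have : n' ((e i : upper β) : ℂ) = n i := by
      simp only [n', dif_pos hmem]
      congr 1
      exact e.symm_apply_apply i
    rw [this]
    exact fourier_ang _ hs.2.2.1 (n i)
  have h2 := mult_indep hβ n' h1
  funext i
  have hmem := (e i).2
  have := h2 _ hmem
  simp only [n', dif_pos hmem] at this
  have h3 : e.symm ⟨((e i : upper β) : ℂ), hmem⟩ = i := e.symm_apply_apply i
  rw [h3] at this
  simpa using this

/-- Factorisation of the minimal polynomial of `β ^ k` over the reals. -/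
lemma minpoly_pow_real (M : ℕ) (hM : (upper β).card = M) {k : ℕ} (hk : 1 ≤ k) :
    (minpoly ℤ (β^k)).map (Int.castRingHom ℝ) = (X - C (β^k)) * ((X - C (1/β^k)) * Rpoly M (k • pt β M hM)) := by
  have hinj : Function.Injective (Polynomial.map Complex.ofRealHom) :=
    Polynomial.map_injective _ Complex.ofRealHom.injective
  apply hinj
  rw [Polynomial.map_map]
  have e1 : Complex.ofRealHom.comp (Int.castRingHom ℝ) = algebraMap ℤ ℂ := RingHom.ext_int _ _
  rw [e1, minpoly_pow_prod hβ hk, prod_rts hβ (fun z => X - C (z^k))]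
  rw [Polynomial.map_mul, Polynomial.map_mul, Polynomial.map_sub, Polynomial.map_sub, map_X, map_C, map_C]
  have e2 : (Complex.ofRealHom (β^k)) = (β : ℂ)^k := by simp
  have e3 : (Complex.ofRealHom (1/β^k)) = ((β : ℂ)⁻¹)^k := by simp
  rw [e2, e3, mul_assoc]
  congr 2
  unfold Rpoly
  rw [Polynomial.map_prod, ← Finset.prod_coe_sort]
  symm
  apply Fintype.prod_equiv (enum β M hM)
  intro i
  set w : ℂ := ((enum β M hM i : upper β) : ℂ) with hw
  have hs := upper_spec hβ (enum β M hM i).2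
  have hf : (fourier 1 ((k • pt β M hM) i) : ℂ) = w^k := by
    show (fourier 1 (k • ang w) : ℂ) = w^k
    exact fourier_nsmul_ang w hs.2.2.1 k
  rw [hf]
  simp only [Polynomial.map_add, Polynomial.map_sub, Polynomial.map_pow, Polynomial.map_mul, map_X, map_C, Polynomial.map_one]
  have h2 : w^k + (starRingEnd ℂ) w ^ k = ((2 * (w^k).re : ℝ) : ℂ) := by
    rw [← map_pow]; exact Complex.add_conj (w^k)
  have h3 : Complex.ofRealHom (2 * (w^k).re) = ((2 * (w^k).re : ℝ) : ℂ) := rfl
  have h1 : w^k * (starRingEnd ℂ) w ^ k = 1 := by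
    rw [← mul_pow, ← hs.2.2.2, mul_inv_cancel₀ (root_ne_zero hβ hs.1), one_pow]
  rw [h3, ← h2]
  have h4 : C (w^k * (starRingEnd ℂ) w ^ k) = (1 : ℂ[X]) := by rw [h1, C_1]
  rw [C_mul] at h4
  rw [C_add]
  linear_combination (-1 : ℂ[X]) * h4

end Torus

end Pool.Agent.Helper3
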