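import Mathlib
import Pool.Agent.Helper3.Powers
import Pool.Agent.Helper3.Family

/-! Counting Salem numbers of given degree: upper bound for all, lower bound for the family. -/

open Polynomial

namespace Pool.Agent.Helper3

lemma reflect_quad (a : ℝ) : reflect 2 (X ^ 2 - C a * X + 1 : ℝ[X]) = X ^ 2 - C a * X + 1 := by
  ext i
  rw [coeff_reflect]
  have h : ∀ j, (X ^ 2 - C a * X + 1 : ℝ[X]).coeff j = (if j = 2 then 1 else 0) - a * (if j = 1 then 1 else 0) + (if j = 0 then 1 else 0) := by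
    intro j
    rw [coeff_add, coeff_sub, coeff_C_mul, coeff_X_pow, coeff_X, coeff_one]
    congr 2
    congr 1
    simp only [eq_comm]
  rw [h, h]
  rcases le_or_gt i 2 with hi | hi
  · rw [revAt_le hi]
    interval_cases i <;> norm_num
  · rw [revAt_eq_self_of_lt hi]

lemma reflect_prod {ι : Type*} (s : Finset ι) (p : ι → ℝ[X]) (hp : ∀ i, (p i).natDegree ≤ 2)
    (hr : ∀ i, reflect 2 (p i) = p i) : reflect (2 * s.card) (∏ i ∈ s, p i) = ∏ i ∈ s, p i := by
  classical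
  induction s using Finset.induction_on with
  | empty => simp
  | insert i s hi ih =>
    rw [Finset.prod_insert hi, Finset.card_insert_of_notMem hi, show 2 * (s.card + 1) = 2 + 2 * s.card by ring,
      reflect_mul _ _ (hp i), hr i, ih]
    refine (natDegree_prod_le _ _).trans ?_
    refine (Finset.sum_le_card_nsmul s _ 2 (fun j _ => hp j)).trans ?_
    simp [mul_comm]

section Salem

variable {β : ℝ} (hβ : IsSalem β)

include hβ

lemma minpoly_real (M : ℕ) (hM : (upper β).card = M) :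
    (minpoly ℤ β).map (Int.castRingHom ℝ) = (X ^ 2 - C (β + 1/β) * X + 1) * Rpoly M (pt β M hM) := by
  have h := minpoly_pow_real hβ M hM (k := 1) le_rfl
  simp only [pow_one, one_smul] at h
  rw [h, ← mul_assoc]
  congr 1
  have hb : β ≠ 0 := by have := hβ.1; linarith
  have h1 : C β * C (1/β) = (1 : ℝ[X]) := by rw [← C_mul, mul_one_div_cancel hb, C_1]
  rw [C_add]
  linear_combination h1

lemma minpoly_pal (M : ℕ) (hM : (upper β).card = M) (i : ℕ) (hi : i ≤ 2*M+2) :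
    (minpoly ℤ β).coeff (2*M+2-i) = (minpoly ℤ β).coeff i := by
  have h := minpoly_real hβ M hM
  have hr : reflect (2*M+2) ((minpoly ℤ β).map (Int.castRingHom ℝ)) = (minpoly ℤ β).map (Int.castRingHom ℝ) := by
    rw [h, show 2*M+2 = 2 + 2*M by ring, reflect_mul _ _ (quad_natDegree _).le (Rpoly_natDegree M _).le, reflect_quad]
    congr 1
    unfold Rpoly
    have := reflect_prod (Finset.univ : Finset (Fin M)) (fun i => (X ^ 2 - C (2 * (fourier 1 ((pt β M hM) i)).re) * X + 1 : ℝ[X]))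
      (fun i => (quad_natDegree _).le) (fun i => reflect_quad _)
    simpa using this
  have h2 := congrArg (fun p : ℝ[X] => p.coeff i) hr
  simp only [coeff_reflect, revAt_le hi, coeff_map] at h2
  have h3 : (((minpoly ℤ β).coeff (2*M+2-i) : ℤ) : ℝ) = ((minpoly ℤ β).coeff i : ℤ) := h2
  exact_mod_cast h3

lemma minpoly_coeff_zero (M : ℕ) (hM : (upper β).card = M) : (minpoly ℤ β).coeff 0 = 1 := by
  have h := minpoly_pal hβ M hM (2*M+2) le_rfl
  rw [Nat.sub_self] at h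
  rw [h]
  have hd := natDegree_eq hβ
  rw [hM] at hd
  have := (minpoly.monic hβ.2.1).coeff_natDegree
  rwa [hd] at this

lemma minpoly_coeff_bound (M : ℕ) (hM : (upper β).card = M) (i : ℕ) (hi : 1 ≤ i) :
    |((minpoly ℤ β).coeff i : ℝ)| ≤ 2^(2*M+1) * (1 + β) := by
  classical
  have hdeg : (minpoly ℤ β).natDegree = 2*M+2 := by rw [natDegree_eq hβ, hM]
  have hself : (β : ℂ) ∈ rts β := (mem_rts hβ.2.1 _).2 (self_root β)
  set V : ℂ[X] := ∏ z ∈ (rts β).erase (β : ℂ), (X - C z) with hV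
  have hprod : (minpoly ℤ β).map (algebraMap ℤ ℂ) = (X - C (β : ℂ)) * V := by
    rw [minpoly_C_prod hβ.2.1, hV, Finset.mul_prod_erase _ (fun z => X - C z) hself]
  have hVmon : V.Monic := monic_prod_of_monic _ _ (fun z _ => monic_X_sub_C _)
  have hVdeg : V.natDegree = 2*M+1 := by
    have h1 := congrArg natDegree hprod
    rw [(minpoly.monic hβ.2.1).natDegree_map, hdeg, (monic_X_sub_C _).natDegree_mul hVmon, natDegree_X_sub_C] at h1
    omega
  have hVc : ∀ j, ‖V.coeff j‖ ≤ 2^(2*M+1) := by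
    intro j
    have h1 := coeff_le_of_roots_le (F := ℂ) (K := ℂ) (p := V) (f := RingHom.id ℂ) (B := 1) j hVmon
      (by rw [map_id]; exact IsAlgClosed.splits _) (by
        intro z hz
        rw [map_id, mem_roots hVmon.ne_zero, IsRoot.def, hV, eval_prod, Finset.prod_eq_zero_iff] at hz
        obtain ⟨y, hy, hy0⟩ := hz
        rw [eval_sub, eval_X, eval_C, sub_eq_zero] at hy0
        rw [Finset.mem_erase, mem_rts hβ.2.1] at hy
        rw [hy0]
        exact hβ.2.2.1 y hy.2 hy.1)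
    rw [map_id, one_pow, one_mul, hVdeg] at h1
    refine h1.trans ?_
    have h2 : (2*M+1).choose j ≤ 2^(2*M+1) := by
      rcases le_or_gt j (2*M+1) with hj | hj
      · rw [← Nat.sum_range_choose]
        exact Finset.single_le_sum (f := fun m => (2*M+1).choose m) (fun _ _ => Nat.zero_le _) (Finset.mem_range.2 (by omega))
      · rw [Nat.choose_eq_zero_of_lt hj]; exact Nat.zero_le _
    exact_mod_cast h2
  obtain ⟨k, rfl⟩ : ∃ k, i = k + 1 := ⟨i-1, by omega⟩
  have h1 : (((minpoly ℤ β).coeff (k+1) : ℤ) : ℂ) = V.coeff k - β * V.coeff (k+1) := by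
    have := congrArg (fun p : ℂ[X] => p.coeff (k+1)) hprod
    simp only [coeff_map] at this
    rw [sub_mul, coeff_sub, coeff_X_mul, coeff_C_mul] at this
    simpa using this
  have h2 : |((minpoly ℤ β).coeff (k+1) : ℝ)| = ‖(((minpoly ℤ β).coeff (k+1) : ℤ) : ℂ)‖ := by
    rw [Complex.norm_intCast]
  rw [h2, h1]
  refine (norm_sub_le _ _).trans ?_
  rw [norm_mul, norm_beta hβ]
  have h3 := hVc k
  have h4 := hVc (k+1)
  have hb : 0 ≤ β := by linarith [hβ.1]
  have h5 : β * ‖V.coeff (k+1)‖ ≤ β * 2^(2*M+1) := mul_le_mul_of_nonneg_left h4 hb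
  linarith

end Salem

/-- Salem numbers of degree `d` up to `X`. -/
def salemSet (d : ℕ) (X : ℝ) : Set ℝ := {β | IsSalem β ∧ (minpoly ℤ β).natDegree = d ∧ β ≤ X}

lemma salemSet_upper (M : ℕ) (Y : ℝ) (hY : 1 ≤ Y) :
    (salemSet (2*M+2) Y).Finite ∧ ((salemSet (2*M+2) Y).ncard : ℝ) ≤ (3 * (2^(2*M+2) * Y))^(M+1) := by
  classical
  set B : ℤ := ⌊(2^(2*M+2) * Y : ℝ)⌋ with hB
  let tgt : Finset (Fin (M+1) → ℤ) := Fintype.piFinset (fun _ : Fin (M+1) => Finset.Icc (-B) B)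
  let f : ℝ → (Fin (M+1) → ℤ) := fun β i => (minpoly ℤ β).coeff (i+1)
  have hcard : ∀ β ∈ salemSet (2*M+2) Y, (upper β).card = M := by
    intro β hβ
    have := natDegree_eq hβ.1
    rw [hβ.2.1] at this
    omega
  have hmaps : ∀ β ∈ salemSet (2*M+2) Y, f β ∈ (tgt : Set (Fin (M+1) → ℤ)) := by
    intro β hβ
    rw [Finset.mem_coe, Fintype.mem_piFinset]
    intro i
    have h1 := minpoly_coeff_bound hβ.1 M (hcard β hβ) (i+1) (by omega)
    have h2 : (2:ℝ)^(2*M+1) * (1+β) ≤ 2^(2*M+2) * Y := by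
      have : (2:ℝ)^(2*M+2) = 2^(2*M+1) * 2 := by ring
      rw [this, mul_assoc]
      apply mul_le_mul_of_nonneg_left _ (by positivity)
      linarith [hβ.2.2]
    have h3 := abs_le.1 (h1.trans h2)
    rw [Finset.mem_Icc]
    constructor
    · rw [neg_le, hB, Int.le_floor]; push_cast; linarith
    · rw [hB, Int.le_floor]; exact h3.2
  have hinj : Set.InjOn f (salemSet (2*M+2) Y) := by
    intro β hβ β' hβ' h
    have hmp : minpoly ℤ β = minpoly ℤ β' := by
      ext i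
      have hi1 : ∀ i, 1 ≤ i → i ≤ M+1 → (minpoly ℤ β).coeff i = (minpoly ℤ β').coeff i := by
        intro i h1 h2
        have := congrFun h ⟨i-1, by omega⟩
        simp only [f] at this
        rwa [Nat.sub_add_cancel h1] at this
      rcases Nat.eq_zero_or_pos i with h0 | h0
      · subst h0
        rw [minpoly_coeff_zero hβ.1 M (hcard β hβ), minpoly_coeff_zero hβ'.1 M (hcard β' hβ')]
      rcases le_or_gt i (M+1) with h1 | h1
      · exact hi1 i h0 h1
      rcases lt_trichotomy i (2*M+2) with h2 | h2 | h2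
      · have e1 := minpoly_pal hβ.1 M (hcard β hβ) i h2.le
        have e2 := minpoly_pal hβ'.1 M (hcard β' hβ') i h2.le
        rw [← e1, ← e2]
        exact hi1 _ (by omega) (by omega)
      · have e1 := (minpoly.monic hβ.1.2.1).coeff_natDegree
        have e2 := (minpoly.monic hβ'.1.2.1).coeff_natDegree
        rw [hβ.2.1] at e1
        rw [hβ'.2.1] at e2
        rw [h2, e1, e2]
      · rw [coeff_eq_zero_of_natDegree_lt (by rw [hβ.2.1]; exact h2), coeff_eq_zero_of_natDegree_lt (by rw [hβ'.2.1]; exact h2)]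
    have h1 : aeval (β' : ℂ) (minpoly ℤ β) = 0 := by rw [hmp]; exact self_root β'
    have h2 : (β' : ℂ) = β := eq_of_norm hβ.1 h1 (by rw [norm_beta hβ'.1]; exact hβ'.1.1)
    exact_mod_cast h2.symm
  have hfin : (salemSet (2*M+2) Y).Finite := Set.Finite.of_injOn hmaps hinj tgt.finite_toSet
  refine ⟨hfin, ?_⟩
  have h1 : (salemSet (2*M+2) Y).ncard ≤ (tgt : Set (Fin (M+1) → ℤ)).ncard :=
    Set.ncard_le_ncard_of_injOn f hmaps hinj tgt.finite_toSet
  have h2 : (tgt : Set (Fin (M+1) → ℤ)).ncard = (Finset.Icc (-B) B).card^(M+1) := by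
    rw [Set.ncard_coe_finset, Fintype.card_piFinset]
    simp
  have hBpos : 0 ≤ B := by rw [hB]; positivity
  have h3 : ((Finset.Icc (-B) B).card : ℝ) ≤ 3 * (2^(2*M+2) * Y) := by
    rw [Int.card_Icc]
    have h4 : (((B + 1 - -B).toNat : ℕ) : ℤ) = 2*B+1 := by
      rw [Int.toNat_of_nonneg (by omega)]; ring
    have h5 : (((B + 1 - -B).toNat : ℕ) : ℝ) = 2*(B:ℝ)+1 := by exact_mod_cast h4
    rw [h5]
    have h6 : (B:ℝ) ≤ 2^(2*M+2) * Y := Int.floor_le _
    have h7 : (1:ℝ) ≤ 2^(2*M+2) * Y := by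
      have : (1:ℝ) ≤ 2^(2*M+2) := one_le_pow₀ (by norm_num)
      nlinarith
    linarith
  calc ((salemSet (2*M+2) Y).ncard : ℝ) ≤ ((Finset.Icc (-B) B).card : ℝ)^(M+1) := by
        have := h1.trans h2.le; exact_mod_cast this
    _ ≤ _ := pow_le_pow_left₀ (by positivity) h3 _

/-! ### The lower bound -/

/-- residues making the family Eisenstein after the shift `X ↦ X - 1` -/
def eps (M i : ℕ) : ℤ := (-((2*M+2).choose i + (if i = M+1 then 2 else 0) : ℤ)) % 4

lemma eps_nonneg (M i : ℕ) : 0 ≤ eps M i := Int.emod_nonneg _ (by norm_num)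
lemma eps_lt (M i : ℕ) : eps M i < 4 := Int.emod_lt_of_pos _ (by norm_num)

/-- the coefficients of the family -/
def coef (M K : ℕ) (n : Fin (M+1) → Fin K) (i : ℕ) : ℤ :=
  if h : 1 ≤ i ∧ i < 2*M+2 then
    4 * ((n ⟨min i (2*M+2-i) - 1, by omega⟩ : Fin K) : ℤ) + eps M i +
      (if min i (2*M+2-i) = 1 then 8*((M:ℤ)+1)*((K:ℤ)+1) else 0)
  else 0

lemma coef_eq (M K : ℕ) (n : Fin (M+1) → Fin K) (i : ℕ) (h : 1 ≤ i ∧ i < 2*M+2) :
    coef M K n i = 4 * ((n ⟨min i (2*M+2-i) - 1, by omega⟩ : Fin K) : ℤ) + eps M i +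
      (if min i (2*M+2-i) = 1 then 8*((M:ℤ)+1)*((K:ℤ)+1) else 0) := by
  unfold coef; rw [dif_pos h]

lemma family_exists (M K : ℕ) (hM : 1 ≤ M) (n : Fin (M+1) → Fin K) :
    ∃ β : ℝ, β ≤ 4*K + 8*(M+1)*(K+1) ∧ minpoly ℤ β = famP M (coef M K n) ∧ IsSalem β ∧
      (T β)^[2*M+2] 1 = (T β)^[1] 1 := by
  have hK : 1 ≤ K := by
    have := (n ⟨0, by omega⟩).2; omega
  have hKz : (1:ℤ) ≤ K := by exact_mod_cast hK
  have hMz : (1:ℤ) ≤ M := by exact_mod_cast hM
  have hn0 : ∀ j, (0:ℤ) ≤ ((n j : Fin K) : ℤ) := fun j => Int.natCast_nonneg _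
  have hn1 : ∀ j, (((n j : Fin K) : ℕ) : ℤ) ≤ K - 1 := fun j => by
    have := (n j).2; omega
  have hbig : (0:ℤ) ≤ 8*((M:ℤ)+1)*((K:ℤ)+1) := by positivity
  have hpal : ∀ i, 1 ≤ i → i < 2*M+2 → coef M K n (2*M+2-i) = coef M K n i := by
    intro i h1 h2
    rw [coef_eq M K n i ⟨h1, h2⟩, coef_eq M K n (2*M+2-i) ⟨by omega, by omega⟩]
    have e1 : min (2*M+2-i) (2*M+2-(2*M+2-i)) = min i (2*M+2-i) := by
      rw [show 2*M+2-(2*M+2-i) = i by omega, min_comm]
    have e2 : eps M (2*M+2-i) = eps M i := by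
      unfold eps
      rw [Nat.choose_symm (show i ≤ 2*M+2 by omega)]
      congr 3
      by_cases h : i = M+1
      · rw [if_pos h, if_pos (by omega)]
      · rw [if_neg h, if_neg (by omega)]
    simp only [e1, e2]
  have hnn : ∀ i, 2 ≤ i → i < 2*M+1 → 0 ≤ coef M K n i := by
    intro i h1 h2
    rw [coef_eq M K n i ⟨by omega, by omega⟩]
    have := hn0 ⟨min i (2*M+2-i) - 1, by omega⟩
    have h3 := eps_nonneg M i
    split_ifs <;> linarith
  have hc1 : 8*((M:ℤ)+1)*((K:ℤ)+1) ≤ coef M K n 1 := by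
    rw [coef_eq M K n 1 ⟨le_rfl, by omega⟩, if_pos (by omega)]
    have := hn0 ⟨min 1 (2*M+2-1) - 1, by omega⟩
    have h3 := eps_nonneg M 1
    linarith
  have hc1' : coef M K n 1 ≤ 4*K - 1 + 8*((M:ℤ)+1)*((K:ℤ)+1) := by
    rw [coef_eq M K n 1 ⟨le_rfl, by omega⟩, if_pos (by omega)]
    have := hn1 ⟨min 1 (2*M+2-1) - 1, by omega⟩
    have h3 := eps_lt M 1
    linarith
  have hsum : ∑ i ∈ Finset.Ico 2 (2*M+1), coef M K n i + 2 ≤ coef M K n 1 := by
    have h1 : ∑ i ∈ Finset.Ico 2 (2*M+1), coef M K n i ≤ ∑ i ∈ Finset.Ico 2 (2*M+1), (4*(K:ℤ)) := by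
      apply Finset.sum_le_sum
      intro i hi
      rw [Finset.mem_Ico] at hi
      rw [coef_eq M K n i ⟨by omega, by omega⟩, if_neg (by omega)]
      have := hn1 ⟨min i (2*M+2-i) - 1, by omega⟩
      have h3 := eps_lt M i
      linarith
    rw [Finset.sum_const, Nat.card_Ico, nsmul_eq_mul] at h1
    have h2 : (((2*M+1-2 : ℕ) : ℤ)) = 2*M - 1 := by omega
    rw [h2] at h1
    nlinarith
  have hmod : ∀ i, 1 ≤ i → i < 2*M+2 → (4:ℤ) ∣ coef M K n i + (2*M+2).choose i + (if i = M+1 then 2 else 0) := by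
    intro i h1 h2
    rw [coef_eq M K n i ⟨h1, h2⟩]
    have h3 : (4:ℤ) ∣ eps M i + ((2*M+2).choose i + (if i = M+1 then 2 else 0)) := by
      unfold eps
      omega
    have h4 : (4:ℤ) ∣ (if min i (2*M+2-i) = 1 then 8*((M:ℤ)+1)*((K:ℤ)+1) else 0) := by
      split_ifs
      · exact ⟨2*((M:ℤ)+1)*((K:ℤ)+1), by ring⟩
      · exact dvd_zero _
    obtain ⟨a, ha⟩ := h3
    obtain ⟨b, hb⟩ := h4
    rw [hb]
    refine ⟨((n ⟨min i (2*M+2-i) - 1, by omega⟩ : Fin K) : ℤ) + a + b, ?_⟩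
    linear_combination ha
  obtain ⟨β, _, hβ2, hβ3, hβ4, hβ5⟩ := fam_spec hM hpal hnn hsum hmod
  refine ⟨β, ?_, hβ3, hβ4, hβ5⟩
  have h1 : ((coef M K n 1 : ℤ) : ℝ) ≤ 4*K - 1 + 8*((M:ℝ)+1)*((K:ℝ)+1) := by exact_mod_cast hc1'
  linarith

lemma family_lower (M K : ℕ) (hM : 1 ≤ M) (Y : ℝ) (hY : 1 ≤ Y) (hKY : (4*K + 8*(M+1)*(K+1) : ℝ) ≤ Y) :
    K^(M+1) ≤ (salemSet (2*M+2) Y ∩ {β | (T β)^[2*M+2] 1 = (T β)^[1] 1}).ncard := by
  classical
  choose g hg1 hg2 hg3 hg4 using family_exists M K hM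
  have hfin := (salemSet_upper M Y hY).1
  have hinj : Function.Injective g := by
    intro n n' h
    have h1 : famP M (coef M K n) = famP M (coef M K n') := by rw [← hg2, ← hg2, h]
    funext j
    have h2 := congrArg (fun p : ℤ[X] => p.coeff (j+1)) h1
    simp only [famP_coeff] at h2
    have hj : (j:ℕ) < M+1 := j.2
    have hmem : (j:ℕ)+1 ∈ Finset.Ico 1 (2*M+2) := by rw [Finset.mem_Ico]; omega
    rw [if_pos hmem, if_pos hmem] at h2
    have h3 : coef M K n (j+1) = coef M K n' (j+1) := by linarith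
    rw [coef_eq M K n _ ⟨by omega, by omega⟩, coef_eq M K n' _ ⟨by omega, by omega⟩] at h3
    have e1 : min ((j:ℕ)+1) (2*M+2-((j:ℕ)+1)) - 1 = j := by omega
    simp only [e1] at h3
    have h4 : ((n j : ℕ) : ℤ) = ((n' j : ℕ) : ℤ) := by
      have : (⟨(j:ℕ), by omega⟩ : Fin (M+1)) = j := rfl
      linarith
    apply Fin.ext
    exact_mod_cast h4
  have h1 : Set.range g ⊆ salemSet (2*M+2) Y ∩ {β | (T β)^[2*M+2] 1 = (T β)^[1] 1} := by
    rintro _ ⟨n, rfl⟩
    refine ⟨⟨hg3 n, ?_, (hg1 n).trans hKY⟩, hg4 n⟩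
    rw [hg2 n]; exact (famP_natDegree M _).1
  have h2 := Set.ncard_le_ncard h1 (hfin.subset Set.inter_subset_left)
  refine le_trans ?_ h2
  rw [← Set.image_univ, Set.ncard_image_of_injective _ hinj, Set.ncard_univ, Nat.card_eq_fintype_card]
  simp

end Pool.Agent.Helper3
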