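import Mathlib

open Polynomial Filter

namespace Pool.Agent.Helper3.UExp

/-- The height of an integer polynomial: the maximum of the absolute values of its
coefficients. -/
noncomputable def ht (P : ℤ[X]) : ℕ := P.support.sup fun i => (P.coeff i).natAbs

/-- `Solv n ζ X w`: there is an integer polynomial `P` of degree at most `n` and height at most
`X` with `0 < |P(ζ)| ≤ X ^ (-w)`. -/
def Solv (n : ℕ) (ζ X w : ℝ) : Prop :=
  ∃ P : ℤ[X], P.natDegree ≤ n ∧ (ht P : ℝ) ≤ X ∧ 0 < |aeval ζ P| ∧ |aeval ζ P| ≤ X ^ (-w)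

/-- The exponent `w_n(ζ)`: supremum of the real `w` such that `Solv n ζ X w` holds for
arbitrarily large `X`. -/
noncomputable def wExp (n : ℕ) (ζ : ℝ) : EReal :=
  sSup {e : EReal | ∃ w : ℝ, e = w ∧ ∃ᶠ X : ℝ in atTop, Solv n ζ X w}

/-- The uniform exponent: supremum of the real `w` such that `Solv n ζ X w` holds for
all large `X`. -/
noncomputable def wHat (n : ℕ) (ζ : ℝ) : EReal :=
  sSup {e : EReal | ∃ w : ℝ, e = w ∧ ∀ᶠ X : ℝ in atTop, Solv n ζ X w}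

/-- `ζ` is a `U`-number of type `m`. -/
def IsUNumberOfType (m : ℕ) (ζ : ℝ) : Prop :=
  1 ≤ m ∧ wExp m ζ = ⊤ ∧ ∀ k : ℕ, 1 ≤ k → k < m → wExp k ζ ≠ ⊤

lemma natAbs_coeff_le_ht (P : ℤ[X]) (i : ℕ) : (P.coeff i).natAbs ≤ ht P := by
  unfold ht
  by_cases h : i ∈ P.support
  · exact Finset.le_sup (f := fun i => (P.coeff i).natAbs) h
  · rw [Polynomial.notMem_support_iff] at h
    simp [h]

lemma abs_coeff_le_ht (P : ℤ[X]) (i : ℕ) : |(P.coeff i : ℝ)| ≤ ht P := by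
  have := natAbs_coeff_le_ht P i
  have h2 : |(P.coeff i : ℝ)| = ((P.coeff i).natAbs : ℝ) := by
    rw [← Int.cast_abs, Int.abs_eq_natAbs]; simp
  rw [h2]
  exact_mod_cast this

lemma ht_le_of (P : ℤ[X]) (B : ℝ) (hB : ∀ i, |(P.coeff i : ℝ)| ≤ B) : (ht P : ℝ) ≤ B := by
  have hB0 : 0 ≤ B := (abs_nonneg _).trans (hB 0)
  have h : ht P ≤ ⌊B⌋₊ := by
    unfold ht
    apply Finset.sup_le
    intro i _
    apply Nat.le_floor
    have h2 : |(P.coeff i : ℝ)| = ((P.coeff i).natAbs : ℝ) := by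
      rw [← Int.cast_abs, Int.abs_eq_natAbs]; simp
    rw [← h2]; exact hB i
  calc (ht P : ℝ) ≤ (⌊B⌋₊ : ℝ) := by exact_mod_cast h
    _ ≤ B := Nat.floor_le hB0

lemma one_le_ht {P : ℤ[X]} (hP : P ≠ 0) : 1 ≤ ht P := by
  have h := natAbs_coeff_le_ht P P.natDegree
  have h2 : P.coeff P.natDegree ≠ 0 := by
    simpa using hP
  have h3 : 1 ≤ (P.coeff P.natDegree).natAbs := Nat.one_le_iff_ne_zero.mpr (by simpa using h2)
  omega

lemma ht_pos {P : ℤ[X]} (hP : P ≠ 0) : (0 : ℝ) < ht P := by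
  have := one_le_ht hP
  exact_mod_cast this

lemma ne_zero_of_aeval_pos {P : ℤ[X]} {ζ : ℝ} (h : 0 < |aeval ζ P|) : P ≠ 0 := by
  rintro rfl
  simp at h

end Pool.Agent.Helper3.UExp
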