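import Mathlib
import Pool.Agent.Helper3.UDefs

open Polynomial Filter

namespace Pool.Agent.Helper3.UExp

/-- One-sided Gelfond inequality: a factor of an integer polynomial of degree at most `n` has
height at most `2 ^ n * (n + 1)` times the height of the polynomial. -/
lemma ht_factor_le (A B : ℤ[X]) (n : ℕ) (hAB : A * B ≠ 0) (hn : (A * B).natDegree ≤ n) :
    (ht A : ℝ) ≤ 2 ^ n * (n + 1) * ht (A * B) := by
  have hA : A ≠ 0 := left_ne_zero_of_mul hAB
  have hB : B ≠ 0 := right_ne_zero_of_mul hAB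
  have hinj : Function.Injective (Int.castRingHom ℂ) := (Int.castRingHom ℂ).injective_int
  have hdeg : A.natDegree + B.natDegree ≤ n := by rwa [natDegree_mul hA hB] at hn
  have hM : ((A * B).map (Int.castRingHom ℂ)).mahlerMeasure ≤ (n + 1) * ht (A * B) := by
    refine (mahlerMeasure_le_sum_norm_coeff _).trans ?_
    rw [sum_def]
    have h1 : ∀ i ∈ ((A * B).map (Int.castRingHom ℂ)).support,
        ‖((A * B).map (Int.castRingHom ℂ)).coeff i‖ ≤ (ht (A * B) : ℝ) := by
      intro i _
      rw [coeff_map]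
      have := abs_coeff_le_ht (A * B) i
      simpa using this
    refine (Finset.sum_le_card_nsmul _ _ _ h1).trans ?_
    rw [nsmul_eq_mul]
    have h2 : (((A * B).map (Int.castRingHom ℂ)).support.card : ℝ) ≤ n + 1 := by
      have h3 := Polynomial.card_supp_le_succ_natDegree ((A * B).map (Int.castRingHom ℂ))
      rw [natDegree_map_eq_of_injective hinj] at h3
      have h4 : ((A * B).map (Int.castRingHom ℂ)).support.card ≤ n + 1 := by omega
      exact_mod_cast h4
    gcongr
  apply ht_le_of
  intro i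
  have h1 := norm_coeff_le_choose_mul_mahlerMeasure_of_one_le_mahlerMeasure i
    (A.map (Int.castRingHom ℂ)) (B.map (Int.castRingHom ℂ)) (one_le_mahlerMeasure_of_ne_zero hB)
  rw [← Polynomial.map_mul, coeff_map, natDegree_map_eq_of_injective hinj] at h1
  have h2 : |((A.coeff i : ℤ) : ℝ)| = ‖(Int.castRingHom ℂ) (A.coeff i)‖ := by simp
  rw [h2]
  refine h1.trans ?_
  have h3 : ((A.natDegree.choose i : ℕ) : ℝ) ≤ 2 ^ n := by
    have h4 : A.natDegree.choose i ≤ 2 ^ n :=
      (Nat.choose_le_two_pow _ _).trans (Nat.pow_le_pow_right (by norm_num) (by omega))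
    exact_mod_cast h4
  have h5 : 0 ≤ ((A * B).map (Int.castRingHom ℂ)).mahlerMeasure := mahlerMeasure_nonneg _
  calc ((A.natDegree.choose i : ℕ) : ℝ) * ((A * B).map (Int.castRingHom ℂ)).mahlerMeasure
      ≤ 2 ^ n * ((n + 1) * ht (A * B)) := by gcongr
    _ = 2 ^ n * (n + 1) * ht (A * B) := by ring

end Pool.Agent.Helper3.UExp
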