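import Mathlib
import Pool.Agent.Helper3.UDefs

open Polynomial Filter

namespace Pool.Agent.Helper3.UExp

/-- A determinant bound: column bounds `c j` outside row `i0`, and `c j * t` in row `i0`. -/
lemma det_bound {N : ℕ} (M : Matrix (Fin N) (Fin N) ℝ) (i0 : Fin N) (c : Fin N → ℝ) (t : ℝ)
    (hc : ∀ j, 0 ≤ c j) (ht : 0 ≤ t) (h : ∀ i j, i ≠ i0 → |M i j| ≤ c j)
    (h0 : ∀ j, |M i0 j| ≤ c j * t) : |M.det| ≤ N.factorial * (t * ∏ j, c j) := by
  rw [Matrix.det_apply]
  refine (Finset.abs_sum_le_sum_abs _ _).trans ?_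
  have h1 : ∀ σ ∈ (Finset.univ : Finset (Equiv.Perm (Fin N))),
      |Equiv.Perm.sign σ • ∏ i, M (σ i) i| ≤ t * ∏ j, c j := by
    intro σ _
    have h2 : |Equiv.Perm.sign σ • ∏ i, M (σ i) i| = |∏ i, M (σ i) i| := by
      rcases Int.units_eq_one_or (Equiv.Perm.sign σ) with hs | hs <;> simp [hs]
    rw [h2, Finset.abs_prod]
    set j0 := σ.symm i0 with hj0
    rw [← Finset.mul_prod_erase Finset.univ (fun j => |M (σ j) j|) (Finset.mem_univ j0),
      ← Finset.mul_prod_erase Finset.univ c (Finset.mem_univ j0)]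
    have h3 : |M (σ j0) j0| ≤ c j0 * t := by
      have : σ j0 = i0 := by simp [hj0]
      rw [this]; exact h0 j0
    have h4 : ∏ j ∈ Finset.univ.erase j0, |M (σ j) j| ≤ ∏ j ∈ Finset.univ.erase j0, c j := by
      apply Finset.prod_le_prod
      · intro j _; exact abs_nonneg _
      · intro j hj
        apply h
        intro hne
        apply Finset.ne_of_mem_erase hj
        rw [hj0, ← hne]; simp
    have h5 : 0 ≤ ∏ j ∈ Finset.univ.erase j0, |M (σ j) j| :=
      Finset.prod_nonneg fun j _ => abs_nonneg _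
    calc |M (σ j0) j0| * ∏ j ∈ Finset.univ.erase j0, |M (σ j) j|
        ≤ (c j0 * t) * ∏ j ∈ Finset.univ.erase j0, c j :=
          mul_le_mul h3 h4 h5 (mul_nonneg (hc _) ht)
      _ = t * (c j0 * ∏ j ∈ Finset.univ.erase j0, c j) := by ring
  refine (Finset.sum_le_card_nsmul _ _ _ h1).trans ?_
  rw [nsmul_eq_mul, Finset.card_univ, Fintype.card_perm, Fintype.card_fin]

/-- Sum along a column of the Sylvester matrix. -/
lemma sum_shift (P : ℤ[X]) (n N j : ℕ) (hP : P.natDegree ≤ n) (hj : j + n < N) (ζ : ℝ) :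
    ∑ k : Fin N, ζ ^ (k : ℕ) *
      ((if (k : ℕ) ∈ Set.Icc j (j + n) then P.coeff ((k : ℕ) - j) else 0 : ℤ) : ℝ)
      = ζ ^ j * aeval ζ P := by
  rw [Fin.sum_univ_eq_sum_range (fun k => ζ ^ k *
      ((if k ∈ Set.Icc j (j + n) then P.coeff (k - j) else 0 : ℤ) : ℝ)) N]
  have h1 : aeval ζ P = ∑ i ∈ Finset.range (n + 1), (P.coeff i : ℝ) * ζ ^ i := by
    rw [aeval_def, eval₂_eq_eval_map, eval_eq_sum_range' (n := n + 1)]
    · simp
    · exact lt_of_le_of_lt (natDegree_map_le) (by omega)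
  rw [h1, Finset.mul_sum]
  symm
  apply Finset.sum_bij_ne_zero (fun i _ _ => j + i)
  · intro i hi _
    simp only [Finset.mem_range] at hi ⊢
    omega
  · intro a _ _ b _ _ hab
    omega
  · intro k hk hne
    have hmem : k ∈ Set.Icc j (j + n) := by
      by_contra hcon
      simp [hcon] at hne
    rw [Set.mem_Icc] at hmem
    refine ⟨k - j, by simp only [Finset.mem_range]; omega, ?_, by omega⟩
    have hmem' : k ∈ Set.Icc j (j + n) := hmem
    simp only [hmem', if_true] at hne
    intro h0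
    apply hne
    have h2 : k = j + (k - j) := by omega
    rw [h2, pow_add]
    have h3 : j + (k - j) - j = k - j := by omega
    rw [h3]
    linear_combination h0
  · intro i hi _
    simp only [Finset.mem_range] at hi
    have hmem : j + i ∈ Set.Icc j (j + n) := by rw [Set.mem_Icc]; omega
    simp only [hmem, if_true]
    have h3 : j + i - j = i := by omega
    rw [h3, pow_add]
    ring

/-- The formal resultant of a primitive irreducible `Q` of degree `m` with `R` of degree at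
most `n` not divisible by `Q` is nonzero. -/
lemma resultant_ne (Q R : ℤ[X]) (m n : ℕ) (hm : Q.natDegree = m)
    (hQ : Irreducible Q) (hprim : Q.IsPrimitive) (hR : R.natDegree ≤ n) (hQR : ¬ Q ∣ R) :
    resultant Q R m n ≠ 0 := by
  have hQ0 : Q ≠ 0 := hQ.ne_zero
  have h1 : Irreducible (Q.map (Int.castRingHom ℚ)) :=
    (IsPrimitive.Int.irreducible_iff_irreducible_map_cast hprim).mp hQ
  have h2 : ¬ (Q.map (Int.castRingHom ℚ)) ∣ (R.map (Int.castRingHom ℚ)) := by
    intro h
    exact hQR ((IsPrimitive.Int.dvd_iff_map_cast_dvd_map_cast Q R hprim).mpr h)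
  have h3 : IsCoprime (Q.map (Int.castRingHom ℚ)) (R.map (Int.castRingHom ℚ)) :=
    (h1.coprime_iff_not_dvd).mpr h2
  have h4 := resultant_ne_zero _ _ h3
  have hinj : Function.Injective (Int.castRingHom ℚ) := (Int.castRingHom ℚ).injective_int
  rw [natDegree_map_eq_of_injective hinj, natDegree_map_eq_of_injective hinj,
    resultant_map_map] at h4
  have h5 : resultant Q R Q.natDegree R.natDegree ≠ 0 := by
    intro h; rw [h] at h4; simp at h4
  obtain ⟨k, rfl⟩ := Nat.exists_eq_add_of_le hR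
  rw [resultant_add_right_deg _ _ _ _ _ le_rfl, ← hm]
  exact mul_ne_zero (pow_ne_zero _ (by simpa using hQ0)) h5

/-- The resultant inequality. -/
lemma res_ineq (ζ : ℝ) (m n : ℕ) (hm1 : 1 ≤ m) : ∃ C : ℝ, 1 ≤ C ∧ ∀ Q R : ℤ[X],
    Q.natDegree = m → Irreducible Q → Q.IsPrimitive → R.natDegree ≤ n → ¬ Q ∣ R →
    (1 ≤ C * ((ht Q : ℝ) ^ n * (ht R : ℝ) ^ (m - 1) * |aeval ζ R|) ∨
      1 ≤ C * ((ht Q : ℝ) ^ n * (ht R : ℝ) ^ m * |aeval ζ Q|)) := by
  set Z : ℝ := max 1 |ζ| with hZ
  have hZ1 : 1 ≤ Z := le_max_left _ _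
  have hZ0 : 0 ≤ Z := by linarith
  refine ⟨(m + n).factorial * Z ^ (m + n), ?_, ?_⟩
  · have h1 : (1 : ℝ) ≤ (m + n).factorial := by exact_mod_cast Nat.factorial_pos _
    have h2 : (1 : ℝ) ≤ Z ^ (m + n) := one_le_pow₀ hZ1
    nlinarith
  intro Q R hdeg hQ hprim hR hQR
  have hQ0 : Q ≠ 0 := hQ.ne_zero
  have hR0 : R ≠ 0 := by rintro rfl; exact hQR (dvd_zero _)
  have hHQ := ht_pos hQ0
  have hHR := ht_pos hR0
  have hHQ1 : (1 : ℝ) ≤ ht Q := by exact_mod_cast one_le_ht hQ0
  have hN : 0 < m + n := by omega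
  set i0 : Fin (m + n) := ⟨0, hN⟩ with hi0
  set S : Matrix (Fin (m + n)) (Fin (m + n)) ℝ :=
    (sylvester Q R m n).map (Int.castRingHom ℝ) with hS
  have hdet : |S.det| = |((resultant Q R m n : ℤ) : ℝ)| := by
    rw [hS, resultant, ← RingHom.mapMatrix_apply, ← RingHom.map_det]
    simp
  have hdet1 : 1 ≤ |S.det| := by
    rw [hdet, ← Int.cast_abs]
    have := Int.one_le_abs (resultant_ne Q R m n hdeg hQ hprim hR hQR)
    exact_mod_cast this
  set M : Matrix (Fin (m + n)) (Fin (m + n)) ℝ :=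
    S.updateRow i0 (∑ k : Fin (m + n), (ζ ^ (k : ℕ)) • S k) with hM
  have hMdet : M.det = S.det := by
    rw [hM, Matrix.det_updateRow_sum S i0 (fun k : Fin (m + n) => ζ ^ (k : ℕ))]
    simp [hi0]
  set c : Fin (m + n) → ℝ := fun j => Fin.addCases (fun _ => (ht R : ℝ)) (fun _ => (ht Q : ℝ)) j
    with hc
  set t : ℝ := max (Z ^ (m + n) * |aeval ζ R| / ht R) (Z ^ (m + n) * |aeval ζ Q| / ht Q) with ht'
  have ht0 : 0 ≤ t := le_max_of_le_left (by positivity)
  have hcn : ∀ j, 0 ≤ c j := by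
    intro j
    induction j using Fin.addCases with
    | left j => simp only [hc, Fin.addCases_left]; positivity
    | right j => simp only [hc, Fin.addCases_right]; positivity
  have hSentry : ∀ i j, |S i j| ≤ c j := by
    intro i j
    induction j using Fin.addCases with
    | left j =>
      simp only [hc, Fin.addCases_left, hS, Matrix.map_apply, sylvester, Matrix.of_apply]
      split_ifs
      · simpa using abs_coeff_le_ht R _
      · simp
    | right j =>
      simp only [hc, Fin.addCases_right, hS, Matrix.map_apply, sylvester, Matrix.of_apply]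
      split_ifs
      · simpa using abs_coeff_le_ht Q _
      · simp
  have hzp : ∀ (j : ℕ), j ≤ m + n → |ζ ^ j| ≤ Z ^ (m + n) := by
    intro j hj
    rw [abs_pow]
    calc |ζ| ^ j ≤ Z ^ j := pow_le_pow_left₀ (abs_nonneg _) (le_max_right _ _) _
      _ ≤ Z ^ (m + n) := pow_le_pow_right₀ hZ1 hj
  have hb := det_bound M i0 c t hcn ht0 (by
    intro i j hi
    rw [hM, Matrix.updateRow_ne hi]
    exact hSentry i j) (by
    intro j
    rw [hM, Matrix.updateRow_self]
    simp only [Finset.sum_apply, Pi.smul_apply, smul_eq_mul]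
    induction j using Fin.addCases with
    | left j =>
      have h1 := sum_shift R n (m + n) j hR (by omega) ζ
      have h2 : ∑ k : Fin (m + n), ζ ^ (k : ℕ) * S k (Fin.castAdd n j) = ζ ^ (j : ℕ) * aeval ζ R := by
        rw [← h1]
        apply Finset.sum_congr rfl
        intro k _
        simp [hS, sylvester]
      rw [h2, abs_mul]
      simp only [hc, Fin.addCases_left]
      have h3 := hzp j (by omega)
      calc |ζ ^ (j : ℕ)| * |aeval ζ R| ≤ Z ^ (m + n) * |aeval ζ R| := by gcongr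
        _ = ht R * (Z ^ (m + n) * |aeval ζ R| / ht R) := by field_simp
        _ ≤ ht R * t := by gcongr; exact le_max_left _ _
    | right j =>
      have h1 := sum_shift Q m (m + n) j (le_of_eq hdeg) (by omega) ζ
      have h2 : ∑ k : Fin (m + n), ζ ^ (k : ℕ) * S k (Fin.natAdd m j) = ζ ^ (j : ℕ) * aeval ζ Q := by
        rw [← h1]
        apply Finset.sum_congr rfl
        intro k _
        simp [hS, sylvester]
      rw [h2, abs_mul]
      simp only [hc, Fin.addCases_right]
      have h3 := hzp j (by omega)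
      calc |ζ ^ (j : ℕ)| * |aeval ζ Q| ≤ Z ^ (m + n) * |aeval ζ Q| := by gcongr
        _ = ht Q * (Z ^ (m + n) * |aeval ζ Q| / ht Q) := by field_simp
        _ ≤ ht Q * t := by gcongr; exact le_max_right _ _)
  have hprod : ∏ j, c j = (ht R : ℝ) ^ m * (ht Q : ℝ) ^ n := by
    rw [Fin.prod_univ_add]
    simp [hc]
  rw [hMdet, hprod] at hb
  have hb1 : 1 ≤ ((m + n).factorial : ℝ) * (t * ((ht R : ℝ) ^ m * (ht Q : ℝ) ^ n)) :=
    hdet1.trans hb
  have hmm : (ht R : ℝ) ^ m = (ht R : ℝ) ^ (m - 1) * ht R := by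
    rw [← pow_succ]; congr 1; omega
  rcases max_cases (Z ^ (m + n) * |aeval ζ R| / ht R) (Z ^ (m + n) * |aeval ζ Q| / ht Q) with
    ⟨hmax, _⟩ | ⟨hmax, _⟩
  · left
    rw [ht', hmax] at hb1
    refine hb1.trans (le_of_eq ?_)
    rw [hmm]
    field_simp
  · right
    rw [ht', hmax] at hb1
    refine hb1.trans ?_
    have : ((m + n).factorial : ℝ) * (Z ^ (m + n) * |aeval ζ Q| / ht Q *
        ((ht R : ℝ) ^ m * (ht Q : ℝ) ^ n)) ≤
        ((m + n).factorial : ℝ) * (Z ^ (m + n) * |aeval ζ Q| *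
        ((ht R : ℝ) ^ m * (ht Q : ℝ) ^ n)) := by
      gcongr
      exact div_le_self (by positivity) hHQ1
    refine this.trans (le_of_eq ?_)
    ring

end Pool.Agent.Helper3.UExp
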