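import Mathlib
import Pool.Agent.Helper3.UDefs
import Pool.Agent.Helper3.UGelfond
import Pool.Agent.Helper3.UResultant

open Polynomial Filter Real

namespace Pool.Agent.Helper3.UExp

/-- Logarithmic form of `Solv`. -/
def G (n : ℕ) (ζ x w : ℝ) : Prop :=
  ∃ P : ℤ[X], P.natDegree ≤ n ∧ aeval ζ P ≠ 0 ∧ log (ht P) ≤ x ∧ w * x ≤ - log |aeval ζ P|

lemma ne_zero_of_aeval {P : ℤ[X]} {ζ : ℝ} (h : aeval ζ P ≠ 0) : P ≠ 0 := by
  rintro rfl
  simp at h

lemma solv_iff (n : ℕ) (ζ x w : ℝ) : Solv n ζ (exp x) w ↔ G n ζ x w := by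
  unfold Solv G
  constructor
  · rintro ⟨P, h1, h2, h3, h4⟩
    have hP := ne_zero_of_aeval_pos h3
    refine ⟨P, h1, abs_pos.mp h3, ?_, ?_⟩
    · rw [← log_exp x]
      exact log_le_log (ht_pos hP) h2
    · rw [← exp_mul] at h4
      have := log_le_log h3 h4
      rw [log_exp] at this
      linarith
  · rintro ⟨P, h1, h2, h3, h4⟩
    have hP := ne_zero_of_aeval h2
    refine ⟨P, h1, ?_, abs_pos.mpr h2, ?_⟩
    · rw [← exp_log (ht_pos hP)]
      exact exp_le_exp.mpr h3
    · rw [← exp_mul, ← exp_log (abs_pos.mpr h2)]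
      apply exp_le_exp.mpr
      linarith

lemma eventually_exp (p : ℝ → Prop) : (∀ᶠ X in atTop, p X) ↔ ∀ᶠ x in atTop, p (exp x) := by
  rw [← map_exp_atTop, eventually_map, map_exp_atTop]

lemma frequently_exp (p : ℝ → Prop) : (∃ᶠ X in atTop, p X) ↔ ∃ᶠ x in atTop, p (exp x) := by
  rw [← map_exp_atTop, frequently_map, map_exp_atTop]

lemma G_mono {n : ℕ} {ζ x w w' : ℝ} (hx : 0 ≤ x) (hw : w' ≤ w) (h : G n ζ x w) : G n ζ x w' := by
  obtain ⟨P, h1, h2, h3, h4⟩ := h
  exact ⟨P, h1, h2, h3, (mul_le_mul_of_nonneg_right hw hx).trans h4⟩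

/-- If `w_k(ζ) < K` then eventually there is no solution with exponent `K`. -/
lemma eventually_not_G {k : ℕ} {ζ K : ℝ} (h : wExp k ζ < (K : EReal)) :
    ∀ᶠ x in atTop, ¬ G k ζ x K := by
  have h1 : ¬ ∃ᶠ X in atTop, Solv k ζ X K := by
    intro hf
    have : (K : EReal) ≤ wExp k ζ := le_sSup ⟨K, rfl, hf⟩
    exact absurd h (not_lt.mpr this)
  rw [frequently_exp, not_frequently] at h1
  filter_upwards [h1] with x hx
  rwa [solv_iff] at hx

lemma frequently_G {m : ℕ} {ζ : ℝ} (h : wExp m ζ = ⊤) (W : ℝ) : ∃ᶠ x in atTop, G m ζ x W := by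
  have h1 : (W : EReal) < wExp m ζ := by rw [h]; exact EReal.coe_lt_top W
  rw [wExp, lt_sSup_iff] at h1
  obtain ⟨e, ⟨w, rfl, hw⟩, hlt⟩ := h1
  rw [frequently_exp] at hw
  have hlt' : W < w := by exact_mod_cast hlt
  apply (hw.and_eventually (eventually_ge_atTop 0)).mono
  rintro x ⟨hx, hx0⟩
  rw [solv_iff] at hx
  exact G_mono hx0 hlt'.le hx

lemma eventually_G {n : ℕ} {ζ L : ℝ} (h : (L : EReal) < wHat n ζ) :
    ∃ w : ℝ, L < w ∧ ∀ᶠ x in atTop, G n ζ x w := by
  rw [wHat, lt_sSup_iff] at h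
  obtain ⟨e, ⟨w, rfl, hw⟩, hlt⟩ := h
  refine ⟨w, by exact_mod_cast hlt, ?_⟩
  rw [eventually_exp] at hw
  filter_upwards [hw] with x hx
  rwa [solv_iff] at hx

lemma wExp_nonneg (k : ℕ) (ζ : ℝ) : 0 ≤ wExp k ζ := by
  apply le_sSup
  refine ⟨0, by simp, ?_⟩
  apply Eventually.frequently
  filter_upwards [eventually_ge_atTop 1] with X hX
  refine ⟨1, by simp, ?_, by simp, by simp⟩
  refine le_trans (ht_le_of 1 1 ?_) hX
  intro i
  rw [coeff_one]
  split_ifs <;> simp

lemma one_le_abs_const {P : ℤ[X]} {ζ : ℝ} (hd : P.natDegree = 0) (h : aeval ζ P ≠ 0) :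
    1 ≤ |aeval ζ P| := by
  rw [eq_C_of_natDegree_eq_zero hd] at h ⊢
  simp only [aeval_C] at h ⊢
  have h1 : P.coeff 0 ≠ 0 := by
    intro h0; rw [h0] at h; simp at h
  have h2 := Int.one_le_abs h1
  have h3 : (1 : ℝ) ≤ |((P.coeff 0 : ℤ) : ℝ)| := by
    rw [← Int.cast_abs]; exact_mod_cast h2
  simpa using h3

lemma wExp_zero (ζ : ℝ) : wExp 0 ζ = 0 := by
  apply le_antisymm _ (wExp_nonneg 0 ζ)
  apply sSup_le
  rintro e ⟨w, rfl, hw⟩
  rw [frequently_exp] at hw
  obtain ⟨x, hx, hx0⟩ := (hw.and_eventually (eventually_gt_atTop 0)).exists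
  rw [solv_iff] at hx
  obtain ⟨P, h1, h2, h3, h4⟩ := hx
  have h5 := one_le_abs_const (Nat.le_zero.mp h1) h2
  have h6 : 0 ≤ log |aeval ζ P| := log_nonneg h5
  have h7 : w * x ≤ 0 := by linarith
  have h8 : w ≤ 0 := by
    by_contra hcon
    push Not at hcon
    have := mul_pos hcon hx0
    linarith
  exact_mod_cast h8

/-- Logarithmic Gelfond inequality. -/
lemma log_ht_factor (n : ℕ) : ∃ c : ℝ, 0 ≤ c ∧ ∀ A B : ℤ[X], A * B ≠ 0 →
    (A * B).natDegree ≤ n → log (ht A) ≤ log (ht (A * B)) + c := by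
  refine ⟨log (2 ^ n * (n + 1)), ?_, ?_⟩
  · apply log_nonneg
    have h1 : (1 : ℝ) ≤ 2 ^ n := one_le_pow₀ (by norm_num)
    have h2 : (1 : ℝ) ≤ n + 1 := by linarith [(Nat.cast_nonneg n : (0 : ℝ) ≤ n)]
    nlinarith
  · intro A B hAB hn
    have hA : A ≠ 0 := left_ne_zero_of_mul hAB
    have h1 := ht_factor_le A B n hAB hn
    have h2 := log_le_log (ht_pos hA) h1
    rw [log_mul (by positivity) (ht_pos hAB).ne'] at h2
    linarith

/-- Irreducible approximants for a U-number. -/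
lemma irred_approx {m : ℕ} {ζ : ℝ} (hU : IsUNumberOfType m ζ) (W x0 : ℝ) :
    ∃ x ≥ x0, ∃ Q : ℤ[X], Irreducible Q ∧ Q.IsPrimitive ∧ Q.natDegree = m ∧ aeval ζ Q ≠ 0 ∧
      log (ht Q) ≤ x ∧ W * x ≤ - log |aeval ζ Q| := by
  obtain ⟨hm1, htop, hlow⟩ := hU
  -- exponent in degree m - 1 is finite
  obtain ⟨K, hK0, hK⟩ : ∃ K : ℝ, 0 ≤ K ∧ ∀ᶠ x in atTop, ¬ G (m - 1) ζ x K := by
    have hne : wExp (m - 1) ζ ≠ ⊤ := by
      rcases Nat.eq_zero_or_pos (m - 1) with h0 | h0
      · rw [h0, wExp_zero]; simp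
      · exact hlow (m - 1) h0 (by omega)
    obtain ⟨K, hK1, _⟩ := EReal.lt_iff_exists_real_btwn.mp (lt_top_iff_ne_top.mpr hne)
    refine ⟨K, ?_, eventually_not_G hK1⟩
    have := (wExp_nonneg (m - 1) ζ).trans hK1.le
    exact_mod_cast this
  obtain ⟨c, hc0, hc⟩ := log_ht_factor m
  have hK' : ∀ᶠ x in atTop, ¬ G (m - 1) ζ (x + c) K :=
    (tendsto_atTop_add_const_right atTop c tendsto_id).eventually hK
  set W1 : ℝ := max W 0 with hW1
  have hW1n : 0 ≤ W1 := le_max_right _ _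
  have hfr := frequently_G htop (2 * W1 + 4 * K)
  obtain ⟨x, hx, hxK, hxc, hx0, hxn⟩ := (hfr.and_eventually (hK'.and
    ((eventually_ge_atTop c).and ((eventually_ge_atTop x0).and (eventually_ge_atTop 0))))).exists
  obtain ⟨P, h1, h2, h3, h4⟩ := hx
  have hP0 : P ≠ 0 := ne_zero_of_aeval h2
  set Q := P.primPart with hQ
  have hPQ : Q * C P.content = P := by
    rw [mul_comm]; exact (P.eq_C_content_mul_primPart).symm
  have hQprim : Q.IsPrimitive := P.isPrimitive_primPart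
  have hlhQ : log (ht Q) ≤ log (ht P) + c := by
    have := hc Q (C P.content) (by rw [hPQ]; exact hP0) (by rw [hPQ]; exact h1)
    rwa [hPQ] at this
  have hev : aeval ζ P = aeval ζ Q * (P.content : ℝ) := by
    conv_lhs => rw [← hPQ]
    rw [map_mul]; simp
  have hQev : aeval ζ Q ≠ 0 := by
    intro h; rw [h, zero_mul] at hev; exact h2 hev
  have hcont : (1 : ℝ) ≤ |(P.content : ℝ)| := by
    have hne : P.content ≠ 0 := by
      intro h; exact hP0 (content_eq_zero_iff.mp h)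
    have := Int.one_le_abs hne
    rw [← Int.cast_abs]; exact_mod_cast this
  have hlvQ : - log |aeval ζ P| ≤ - log |aeval ζ Q| := by
    rw [hev, abs_mul, log_mul (abs_ne_zero.mpr hQev) (by linarith)]
    have := log_nonneg hcont
    linarith
  -- a contradiction generator for small-degree divisors with large value
  have key : ∀ A B : ℤ[X], A * B * C P.content = P → A.natDegree ≤ m - 1 →
      (W1 + 2 * K) * x ≤ - log |aeval ζ A| → False := by
    intro A B hAB hAd hAv
    apply hxK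
    have hABP : A * (B * C P.content) = P := by rw [← mul_assoc]; exact hAB
    have hA := hc A (B * C P.content) (by rw [hABP]; exact hP0) (by rw [hABP]; exact h1)
    rw [hABP] at hA
    have hAev : aeval ζ A ≠ 0 := by
      intro h; rw [← hABP, map_mul, h, zero_mul] at h2; exact h2 rfl
    refine ⟨A, hAd, hAev, by linarith, le_trans ?_ hAv⟩
    nlinarith [mul_nonneg hW1n hxn, mul_nonneg hK0 hxn, mul_nonneg hK0 (sub_nonneg.mpr hxc)]
  have hdegQ : Q.natDegree = P.natDegree := by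
    rw [hQ]; exact P.natDegree_primPart
  have hdeg : Q.natDegree = m := by
    by_contra hne
    refine key Q 1 (by rw [mul_one]; exact hPQ) (by omega) ?_
    nlinarith [mul_nonneg hW1n hxn, mul_nonneg hK0 hxn]
  have hirr : Irreducible Q := by
    rw [irreducible_iff]
    refine ⟨?_, ?_⟩
    · intro hu
      have := natDegree_eq_zero_of_isUnit hu
      omega
    · intro A B hAB
      by_contra hcon
      push Not at hcon
      obtain ⟨hA, hB⟩ := hcon
      have hApr : A.IsPrimitive := isPrimitive_of_dvd hQprim ⟨B, hAB⟩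
      have hBpr : B.IsPrimitive := isPrimitive_of_dvd hQprim ⟨A, by rw [hAB, mul_comm]⟩
      have hpos : ∀ D : ℤ[X], D.IsPrimitive → ¬ IsUnit D → 1 ≤ D.natDegree := by
        intro D hD hDu
        by_contra hlt
        have h0 : D.natDegree = 0 := by omega
        apply hDu
        rw [eq_C_of_natDegree_eq_zero h0]
        apply IsUnit.map C
        apply hD
        rw [← eq_C_of_natDegree_eq_zero h0]
      have hA1 := hpos A hApr hA
      have hB1 := hpos B hBpr hB
      have hQ0 : Q ≠ 0 := ne_zero_of_aeval hQev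
      have hA0 : A ≠ 0 := by rintro rfl; rw [zero_mul] at hAB; exact hQ0 hAB
      have hB0 : B ≠ 0 := by rintro rfl; rw [mul_zero] at hAB; exact hQ0 hAB
      have hsum : A.natDegree + B.natDegree = m := by
        rw [← natDegree_mul hA0 hB0, ← hAB, hdeg]
      have hQe : aeval ζ Q = aeval ζ A * aeval ζ B := by rw [hAB, map_mul]
      have hAe : aeval ζ A ≠ 0 := by
        intro h; rw [hQe, h, zero_mul] at hQev; exact hQev rfl
      have hBe : aeval ζ B ≠ 0 := by
        intro h; rw [hQe, h, mul_zero] at hQev; exact hQev rfl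
      have hlog : - log |aeval ζ Q| = - log |aeval ζ A| + - log |aeval ζ B| := by
        rw [hQe, abs_mul, log_mul (abs_ne_zero.mpr hAe) (abs_ne_zero.mpr hBe)]
        ring
      rcases le_total (- log |aeval ζ B|) (- log |aeval ζ A|) with hle | hle
      · refine key A B (by rw [← hAB]; exact hPQ) (by omega) ?_
        linarith
      · refine key B A (by rw [mul_comm B A, ← hAB]; exact hPQ) (by omega) ?_
        linarith
  refine ⟨x + c, by linarith, Q, hirr, hQprim, hdeg, hQev, by linarith, ?_⟩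
  have h5 : W ≤ W1 := le_max_left _ _
  calc W * (x + c) ≤ W1 * (x + c) := by gcongr
    _ ≤ (2 * W1 + 4 * K) * x := by
      nlinarith [mul_nonneg hW1n hxn, mul_nonneg hK0 hxn, mul_nonneg hW1n (sub_nonneg.mpr hxc)]
    _ ≤ _ := h4.trans hlvQ

end Pool.Agent.Helper3.UExp
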