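import Mathlib
import Pool.Agent.Helper3.UCore

open Polynomial Filter Real

namespace Pool.Agent.Helper3.UExp

/-- The key contradiction. -/
lemma core {m n : ℕ} {ζ : ℝ} (hU : IsUNumberOfType m ζ) (w κ : ℝ) (hκ0 : 0 ≤ κ)
    (hw : ((n / m * m : ℕ) : ℝ) + κ < w)
    (hκ : κ = m - 1 ∨ ∀ᶠ x in atTop, ¬ G (n % m) ζ x κ)
    (hG : ∀ᶠ x in atTop, G n ζ x w) : False := by
  have hm1 : 1 ≤ m := hU.1
  set q : ℕ := n / m with hq
  obtain ⟨c, hc0, hc⟩ := log_ht_factor n
  obtain ⟨C, hC1, hC⟩ := res_ineq ζ m n hm1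
  set C1 : ℝ := log C with hC1def
  have hC10 : 0 ≤ C1 := log_nonneg hC1
  have hmR : (1 : ℝ) ≤ m := by exact_mod_cast hm1
  push_cast at hw
  set η : ℝ := w - q * m - κ with hη
  have hη0 : 0 < η := by rw [hη]; linarith
  -- choice of δ
  set D : ℝ := 2 * (q + 1) * m with hD
  have hD0 : 2 ≤ D := by
    have h1 : 0 ≤ (q : ℝ) * m := by positivity
    rw [hD]; linarith
  set δ : ℝ := min 1 η / D with hδ
  have hmin0 : 0 < min 1 η := lt_min one_pos hη0
  have hδ0 : 0 < δ := div_pos hmin0 (by linarith)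
  have hδD : δ * D = min 1 η := by rw [hδ]; field_simp
  have hδ1 : δ * ((q + 1) * m) ≤ 1 / 2 := by
    have : δ * D ≤ 1 := by rw [hδD]; exact min_le_left _ _
    rw [hD] at this; linarith
  have hδη : δ * ((q + 1) * m) ≤ η / 2 := by
    have : δ * D ≤ η := by rw [hδD]; exact min_le_right _ _
    rw [hD] at this; linarith
  have hqR : (0 : ℝ) ≤ q := Nat.cast_nonneg q
  have hnR : (0 : ℝ) ≤ n := Nat.cast_nonneg n
  have hδm : 0 ≤ δ * m := by positivity
  have hδlt : δ ≤ 1 := by
    have h0 : 0 ≤ (q : ℝ) * m := by positivity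
    have h1 : (1 : ℝ) ≤ (q + 1) * m := by linarith
    have h2 := mul_le_mul_of_nonneg_left h1 hδ0.le
    linarith
  -- thresholds
  set W : ℝ := max 1 (4 * n / δ) with hWdef
  have hW1 : 1 ≤ W := le_max_left _ _
  have hWδ : 4 * n ≤ W * δ := by
    have : 4 * n / δ ≤ W := le_max_right _ _
    rwa [div_le_iff₀ hδ0] at this
  set E : ℝ := m * c + C1 with hE
  have hE0 : 0 ≤ E := by positivity
  have hev : ∀ᶠ x in atTop, G n ζ x w ∧ E < δ * m / 2 * x ∧ E < 1 / 2 * x ∧ E < η / 2 * x ∧
      κ * c < η / 2 * x ∧ 0 < x ∧ (κ = m - 1 ∨ ¬ G (n % m) ζ (x + c) κ) := by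
    have t1 : Tendsto (fun x : ℝ => δ * m / 2 * x) atTop atTop :=
      tendsto_id.const_mul_atTop (by positivity)
    have t2 : Tendsto (fun x : ℝ => 1 / 2 * x) atTop atTop :=
      tendsto_id.const_mul_atTop (by positivity)
    have t3 : Tendsto (fun x : ℝ => η / 2 * x) atTop atTop :=
      tendsto_id.const_mul_atTop (by positivity)
    have hlast : ∀ᶠ x in atTop, (κ = m - 1 ∨ ¬ G (n % m) ζ (x + c) κ) := by
      rcases hκ with h | h
      · exact Eventually.of_forall fun x => Or.inl h
      · filter_upwards [(tendsto_atTop_add_const_right atTop c tendsto_id).eventually h] with x hx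
        exact Or.inr hx
    filter_upwards [hG, t1.eventually_gt_atTop E, t2.eventually_gt_atTop E,
      t3.eventually_gt_atTop E, t3.eventually_gt_atTop (κ * c), eventually_gt_atTop 0, hlast]
      with x a1 a2 a3 a4 a5 a6 a7
    exact ⟨a1, a2, a3, a4, a5, a6, a7⟩
  obtain ⟨x1, hx1⟩ := eventually_atTop.mp hev
  set x1' := max x1 0 with hx1'
  obtain ⟨y, hy, Q, hirr, hprim, hdeg, hQev, hlh, hlv⟩ := irred_approx hU W (2 * m * x1')
  set μ : ℝ := - log |aeval ζ Q| with hμ
  have hy0 : 0 ≤ y := by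
    have : 0 ≤ 2 * (m : ℝ) * x1' := by positivity
    linarith
  set x : ℝ := μ / ((1 + δ) * m) with hx
  have hden : 0 < (1 + δ) * (m : ℝ) := by positivity
  have hμx : μ = (1 + δ) * m * x := by rw [hx]; field_simp
  have hxx1 : x1 ≤ x := by
    rw [hx, le_div_iff₀ hden]
    have h1 : x1 ≤ x1' := le_max_left _ _
    have h2 : 0 ≤ x1' := le_max_right _ _
    calc x1 * ((1 + δ) * m) ≤ x1' * ((1 + δ) * m) := by gcongr
      _ ≤ x1' * (2 * m) := by gcongr; linarith
      _ ≤ y := by linarith
      _ ≤ W * y := le_mul_of_one_le_left hy0 hW1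
      _ ≤ μ := hlv
  obtain ⟨hGx, e1, e2, e3, e4, hx0, hlast⟩ := hx1 x hxx1
  obtain ⟨P, hPd, hPev, hPh, hPv⟩ := hGx
  have hP0 : P ≠ 0 := ne_zero_of_aeval hPev
  have hQ0 : Q ≠ 0 := hirr.ne_zero
  -- n * log height of Q is small
  have hnQ : n * log (ht Q) ≤ δ * m / 2 * x := by
    have h1 : n * log (ht Q) ≤ n * y := by gcongr
    -- W * y ≤ (1+δ) m x ≤ 2 m x
    have h2 : W * y ≤ 2 * m * x := by
      rw [hμx] at hlv
      have : (1 + δ) * m * x ≤ 2 * m * x := by
        have : 0 ≤ (1 - δ) * (m * x) := by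
          apply mul_nonneg (by linarith); positivity
        linarith
      linarith
    have h3 : 4 * n * y ≤ W * δ * y := by gcongr
    have h4 : W * δ * y ≤ δ * (2 * m * x) := by
      calc W * δ * y = δ * (W * y) := by ring
        _ ≤ δ * (2 * m * x) := by gcongr
    linarith
  -- multiplicity of Q in P
  obtain ⟨j, R, hR, hPR⟩ := WfDvdMonoid.max_power_factor hP0 hirr
  have hR0 : R ≠ 0 := by
    rintro rfl; exact hR (dvd_zero _)
  have hPev' : aeval ζ P = (aeval ζ Q) ^ j * aeval ζ R := by rw [hPR, map_mul, map_pow]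
  have hRev : aeval ζ R ≠ 0 := by
    intro h; rw [hPev', h, mul_zero] at hPev; exact hPev rfl
  have hlogP : - log |aeval ζ P| = j * μ + - log |aeval ζ R| := by
    rw [hPev', abs_mul, abs_pow, log_mul (pow_ne_zero _ (abs_ne_zero.mpr hQev))
      (abs_ne_zero.mpr hRev), log_pow, hμ]
    ring
  have hdegP : P.natDegree = j * m + R.natDegree := by
    rw [hPR, natDegree_mul (pow_ne_zero _ hQ0) hR0, natDegree_pow, hdeg]
  have hjm : j * m ≤ n := by omega
  have hjq : j ≤ q := by
    rw [hq]; exact (Nat.le_div_iff_mul_le (by omega)).mpr hjm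
  have hRh : log (ht R) ≤ x + c := by
    have hRP : R * Q ^ j = P := by rw [hPR, mul_comm]
    have := hc R (Q ^ j) (by rw [hRP]; exact hP0) (by rw [hRP]; exact hPd)
    rw [hRP] at this
    linarith
  have hRv : w * x - j * m * (1 + δ) * x ≤ - log |aeval ζ R| := by
    rw [hlogP, hμx] at hPv
    linarith
  have hRn : R.natDegree ≤ n := by omega
  have hHQ := ht_pos hQ0
  have hHR := ht_pos hR0
  have hHR1 : (1 : ℝ) ≤ ht R := by exact_mod_cast one_le_ht hR0
  have hlogHR : 0 ≤ log (ht R) := log_nonneg hHR1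
  rcases hC Q R hdeg hirr hprim hRn hR with hres | hres
  · -- main case
    have h1 : 0 ≤ C1 + (n * log (ht Q) + (m - 1) * log (ht R) + log |aeval ζ R|) := by
      have h2 := log_nonneg hres
      have hRabs : 0 < |aeval ζ R| := abs_pos.mpr hRev
      rw [log_mul (by linarith) (by positivity), log_mul (by positivity) (by positivity),
        log_mul (by positivity) (by positivity), log_pow, log_pow, Nat.cast_sub hm1] at h2
      simpa using h2
    have h3 : - log |aeval ζ R| ≤ E + δ * m / 2 * x + (m - 1) * x := by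
      have h4 : ((m : ℝ) - 1) * log (ht R) ≤ (m - 1) * (x + c) := by
        apply mul_le_mul_of_nonneg_left hRh; linarith
      rw [hE]
      linarith
    rcases Nat.lt_or_ge j q with hjlt | hjge
    · -- j ≤ q - 1
      have hj1 : (j : ℝ) + 1 ≤ q := by exact_mod_cast hjlt
      have h5 : (w - j * m * (1 + δ) - (m - 1) - δ * m / 2) * x ≤ E := by linarith
      have h6 : 1 / 2 ≤ w - j * m * (1 + δ) - (m - 1) - δ * m / 2 := by
        have hw' : q * m < w := by linarith
        have h7 : (j : ℝ) * m ≤ (q - 1) * m := by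
          apply mul_le_mul_of_nonneg_right _ (by linarith); linarith
        have h8 : δ * (j * m) ≤ δ * ((q - 1) * m) := by gcongr
        linarith
      have h9 : 1 / 2 * x ≤ (w - j * m * (1 + δ) - (m - 1) - δ * m / 2) * x := by gcongr
      linarith
    · have hjeq : j = q := le_antisymm hjq hjge
      rcases hlast with hκm | hnG
      · have h5 : (w - j * m * (1 + δ) - (m - 1) - δ * m / 2) * x ≤ E := by linarith
        have h6 : η / 2 ≤ w - j * m * (1 + δ) - (m - 1) - δ * m / 2 := by
          rw [hjeq, ← hκm]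
          linarith
        have h9 : η / 2 * x ≤ (w - j * m * (1 + δ) - (m - 1) - δ * m / 2) * x := by gcongr
        linarith
      · apply hnG
        refine ⟨R, ?_, hRev, hRh, ?_⟩
        · have h5 := Nat.div_add_mod n m
          rw [← hq] at h5
          rw [hjeq] at hdegP
          have h6 : m * q = q * m := mul_comm _ _
          omega
        · refine le_trans ?_ hRv
          rw [hjeq]
          have h6 : η / 2 ≤ w - q * m * (1 + δ) - κ := by linarith
          have h9 : η / 2 * x ≤ (w - q * m * (1 + δ) - κ) * x := by gcongr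
          linarith
  · -- Q too small
    have h1 : 0 ≤ C1 + (n * log (ht Q) + m * log (ht R) + - μ) := by
      have h2 := log_nonneg hres
      have hQabs : 0 < |aeval ζ Q| := abs_pos.mpr hQev
      rw [log_mul (by linarith) (by positivity), log_mul (by positivity) (by positivity),
        log_mul (by positivity) (by positivity), log_pow, log_pow] at h2
      rw [hμ, neg_neg]
      exact h2
    have h3 : (m : ℝ) * log (ht R) ≤ m * (x + c) := by gcongr
    rw [hμx] at h1
    have h4 : (1 + δ) * m * x ≤ E + δ * m / 2 * x + m * x := by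
      rw [hE]; linarith
    linarith

end Pool.Agent.Helper3.UExp
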